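import Mathlib

/-! Statements of the independent lemmas used in the proof of S00557
(non-preperiodic specializations). -/

set_option autoImplicit false

namespace Pool.Agent.H505Z.NP

/-- Residue lemma on a curve. -/
def S_res : Prop :=
  ∀ (k F : Type) [Field k] [Field F] [Algebra k F] [IsAlgClosed k] [CharZero k] [IsAlgClosed F]
    (t : F), Transcendental k t →
    Algebra.IsAlgebraic (IntermediateField.adjoin k ({t} : Set F)) F →
    ∀ (D : Derivation k F F), D t = 1 → ∀ (β : F) (a : k), a ≠ 0 →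
    (∀ W : ValuationSubring F, (∀ c : k, algebraMap k F c ∈ W) → t ∈ W →
      β ∈ Submodule.span W (D '' (W : Set F))) →
    (∀ W : ValuationSubring F, (∀ c : k, algebraMap k F c ∈ W) → t ∉ W →
      β + algebraMap k F a / t ∈ Submodule.span W (D '' (W : Set F))) → False

/-- A non-constant point of projective space has `dlog O(1) ≠ 0`. -/
def S_curve : Prop :=
  ∀ (K E : Type) [Field K] [Field E] [CharZero K] [Algebra K E] [IsAlgClosed E]
    (L : IntermediateField K E) (ι : Type) [Finite ι] (ϑ : ι → E) (l0 l1 : ι),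
    ϑ l0 = 1 → Transcendental L (ϑ l1) →
    ∃ D : Derivation K E E, (∀ x ∈ L, D x = 0) ∧ ∀ (β : E) (a : K), a ≠ 0 →
      ¬ (∀ W : ValuationSubring E, (∀ c : K, algebraMap K E c ∈ W) → ∀ l, ϑ l ≠ 0 →
        (∀ l', ϑ l' / ϑ l ∈ W) →
        β + algebraMap K E a * (D (ϑ l) / ϑ l) ∈ Submodule.span W (D '' (W : Set E)))

/-- Serre finiteness of `H¹` in concrete Čech form. -/
def S_serre : Prop :=
  ∀ (K V : Type) [Field K] [CommRing V] [Algebra K V] (ι : Type) [Fintype ι] (τ : ι → V),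
    (∀ a : V, ∃ b, a * a * b = a) →
    ∀ (N : ℕ → Submodule K V), (∀ d, (N d).FG) → (∀ d i, ∀ v ∈ N d, τ i * v ∈ N (d + 1)) →
    (∃ d0, ∀ d, d0 ≤ d → N (d + 1) ≤ ⨆ i, (N d).map (LinearMap.mulLeft K (τ i))) →
    ∀ (c : ℕ → ι → ι → V), (∀ m i j, ∃ M, (τ i * τ j) ^ M * c m i j ∈ N (2 * M)) →
    (∀ m i j l, τ i * τ j * τ l * (c m j l - c m i l + c m i j) = 0) →
    ∃ (a : ℕ →₀ K) (ω : ι → V), a ≠ 0 ∧ (∀ i, ∃ M, τ i ^ M * ω i ∈ N M) ∧
      ∀ i j, ∃ M, (τ i * τ j) ^ M * (a.sum (fun m r => r • c m i j) - (ω j - ω i)) = 0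

/-- Algebraic core of a surjective endomorphism of a projective variety is quasi-finite. -/
def S_B : Prop :=
  ∀ (K : Type) [Field K] [CharZero K] (ι : Type) [Fintype ι] (F : ℕ → Type) [∀ j, Field (F j)]
    [∀ j, Algebra K (F j)] [∀ j, IsAlgClosed (F j)]
    (L : ∀ j, IntermediateField K (F j)) (τ : ∀ j, ι → F j) (ϑ : ∀ j, ℕ → ι → F j)
    (e : ℕ → ι → ι → ι → MvPolynomial ι K),
    (∀ j, ∃ i, τ j i ≠ 0) →
    (∀ j m i, τ j i ≠ 0 → ∃ lam : ι → F j, ∑ l, lam l * ϑ j m l = 1 ∧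
      ∀ l l', MvPolynomial.aeval (fun s => τ j s / τ j i) (e m i l l') = lam l * ϑ j m l') →
    (∀ j m, j < m → ∀ l, ϑ j m l ∈ L j) →
    (∀ j, ∃ l0, ϑ j j l0 = 1) → (∀ j, ∃ l1, Transcendental (L j) (ϑ j j l1)) → False

/-- Every ball of points of an irreducible affine variety is Zariski dense. -/
def S_dense : Prop :=
  ∀ (k : Type) [Field k] [IsAlgClosed k] (v : AbsoluteValue k ℝ), (∃ c, c ≠ 0 ∧ v c < 1) →
    ∀ (A : Type) [CommRing A] [IsDomain A] [Algebra k A] [Algebra.FiniteType k A]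
      (b : A →ₐ[k] k) (s : Finset A) (ε : ℝ), 0 < ε → ∀ a : A, a ≠ 0 →
      ∃ b' : A →ₐ[k] k, b' a ≠ 0 ∧ ∀ t ∈ s, v (b' t - b t) < ε

/-- `p`-adic dynamics in a residue disc. -/
def S_dyn : Prop :=
  ∀ (k : Type) [Field k] [CharZero k] [Algebra.IsAlgebraic ℚ k] (σ : Type) [Fintype σ]
    (a : σ → MvPolynomial σ k) (h : MvPolynomial σ k) (C : Finset k),
    (∀ l, MvPolynomial.constantCoeff (a l) = 0) → MvPolynomial.constantCoeff h = 1 →
    ∃ (v : AbsoluteValue k ℝ) (ρ : ℝ), IsNonarchimedean v ∧ 0 < ρ ∧ ρ < 1 ∧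
      (∃ c, c ≠ 0 ∧ v c < 1) ∧ (∀ c ∈ C, v c ≤ 1) ∧ (∀ l m, v ((a l).coeff m) ≤ 1) ∧
      (∀ m, v (h.coeff m) ≤ 1) ∧
      ∀ (S : Type) (g : S → S) (θ : S → σ → k), Function.Injective θ →
        (∀ y l, v (θ y l) ≤ ρ) →
        (∀ y l, θ (g y) l * MvPolynomial.eval (θ y) h = MvPolynomial.eval (θ y) (a l)) →
        (∀ y y' (r : ℝ), (∀ l, v (θ y l - θ y' l) ≤ r) → ∀ l, v (θ (g y) l - θ (g y') l) ≤ r) ∧
        ∃ N, 0 < N ∧ (∀ y j, 0 < j → g^[j] y = y → g^[N] y = y) ∧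
          ∀ ε : ℝ, 0 < ε → ∃ m0 : ℕ, ∀ y z m, g^[N] z = z → (g^[N])^[m] y = z →
            ∀ n, m0 ≤ n → ∀ l, v (θ ((g^[N])^[n] y) l - θ z l) < ε

end Pool.Agent.H505Z.NP
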