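import Pool.Agent.H505Z.NP.Defs

/-! Uniform bound for the tail length on a small ball of parameters. -/

set_option autoImplicit false

namespace Pool.Agent.H505Z.NP

lemma nonarch_sub {k : Type} [Field k] {v : AbsoluteValue k ℝ} (hv : IsNonarchimedean v)
    (a b c : k) {r : ℝ} (h1 : v (a - b) ≤ r) (h2 : v (b - c) ≤ r) : v (a - c) ≤ r := by
  have := hv (a - b) (b - c)
  rw [sub_add_sub_cancel] at this
  exact this.trans (max_le h1 h2)

lemma poly_lip {k : Type} [Field k] (v : AbsoluteValue k ℝ) {σ : Type}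
    (P : MvPolynomial σ k) : ∃ C : ℝ, 0 < C ∧ ∀ x x' : σ → k, (∀ l, v (x l) ≤ 1) →
      (∀ l, v (x' l) ≤ 1) → v (MvPolynomial.eval x P) ≤ C ∧ ∀ r : ℝ, 0 ≤ r →
        (∀ l, v (x l - x' l) ≤ r) → v (MvPolynomial.eval x P - MvPolynomial.eval x' P) ≤ C * r := by
  induction P using MvPolynomial.induction_on with
  | C a =>
    refine ⟨v a + 1, by positivity, fun x x' _ _ => ⟨by simp, fun r hr _ => ?_⟩⟩
    simp only [MvPolynomial.eval_C, sub_self, map_zero]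
    positivity
  | add p q hp hq =>
    obtain ⟨C1, h1, hp⟩ := hp
    obtain ⟨C2, h2, hq⟩ := hq
    refine ⟨C1 + C2, by positivity, fun x x' hx hx' => ⟨?_, fun r hr hd => ?_⟩⟩
    · rw [map_add]
      exact (v.add_le _ _).trans (add_le_add (hp x x' hx hx').1 (hq x x' hx hx').1)
    · rw [map_add, map_add, add_sub_add_comm, add_mul]
      exact (v.add_le _ _).trans (add_le_add ((hp x x' hx hx').2 r hr hd)
        ((hq x x' hx hx').2 r hr hd))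
  | mul_X p i hp =>
    obtain ⟨C, h1, hp⟩ := hp
    refine ⟨2 * C, by positivity, fun x x' hx hx' => ⟨?_, fun r hr hd => ?_⟩⟩
    · rw [map_mul, map_mul, MvPolynomial.eval_X]
      have := (hp x x' hx hx').1
      have h2 := hx i
      have h3 := v.nonneg (x i)
      nlinarith
    · rw [map_mul, map_mul, MvPolynomial.eval_X, MvPolynomial.eval_X]
      have e : MvPolynomial.eval x p * x i - MvPolynomial.eval x' p * x' i =
          MvPolynomial.eval x p * (x i - x' i) +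
            (MvPolynomial.eval x p - MvPolynomial.eval x' p) * x' i := by ring
      rw [e]
      refine (v.add_le _ _).trans ?_
      rw [map_mul, map_mul]
      have h2 := (hp x x' hx hx').1
      have h3 := (hp x x' hx hx').2 r hr hd
      have h4 := mul_le_mul h2 (hd i) (v.nonneg _) h1.le
      have h5 := mul_le_mul h3 (hx' i) (v.nonneg _) (by positivity)
      linarith

lemma algHom_aeval {k R : Type} [Field k] [CommRing R] [Algebra k R] {σ : Type} (θ : σ → R)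
    (w : R →ₐ[k] k) (P : MvPolynomial σ k) :
    w (MvPolynomial.aeval θ P) = MvPolynomial.eval (fun l => w (θ l)) P := by
  induction P using MvPolynomial.induction_on with
  | C a => simp
  | add p q hp hq => simp [hp, hq]
  | mul_X p i hp => simp [hp]

lemma ne_zero_near {k R : Type} [Field k] [CommRing R] [Algebra k R] (v : AbsoluteValue k ℝ)
    {σ : Type} (θ : σ → R) (hθ : ∀ g, ∃ P : MvPolynomial σ k, MvPolynomial.aeval θ P = g)
    (w : R →ₐ[k] k) (hw : ∀ l, v (w (θ l)) ≤ 1) (g : R) (hg : w g ≠ 0) :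
    ∃ δ : ℝ, 0 < δ ∧ ∀ w' : R →ₐ[k] k, (∀ l, v (w' (θ l)) ≤ 1) →
      (∀ l, v (w' (θ l) - w (θ l)) ≤ δ) → w' g ≠ 0 := by
  obtain ⟨P, rfl⟩ := hθ g
  obtain ⟨C, hC, hP⟩ := poly_lip v P
  have hpos : 0 < v (w (MvPolynomial.aeval θ P)) := v.pos hg
  refine ⟨v (w (MvPolynomial.aeval θ P)) / (2 * C), by positivity, fun w' hw' hd h0 => ?_⟩
  have := (hP _ _ hw' hw).2 _ (by positivity) hd
  rw [← algHom_aeval, ← algHom_aeval, h0, zero_sub, v.map_neg] at this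
  have e : C * (v (w (MvPolynomial.aeval θ P)) / (2 * C)) =
    v (w (MvPolynomial.aeval θ P)) / 2 := by field_simp
  rw [e] at this
  linarith

lemma exists_lift_away {k R S : Type} [Field k] [CommRing R] [Algebra k R] [CommRing S]
    [Algebra R S] [Algebra k S] [IsScalarTower k R S] (h' : R) [IsLocalization.Away h' S]
    (w : R →ₐ[k] k) (hw : w h' ≠ 0) : ∃ u : S →ₐ[k] k, ∀ g, u (algebraMap R S g) = w g := by
  let u := IsLocalization.Away.lift (S := S) h' (g := w.toRingHom) (Ne.isUnit hw)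
  have hu : ∀ g, u (algebraMap R S g) = w g := fun g => IsLocalization.Away.lift_eq h' _ g
  refine ⟨⟨u, fun c => ?_⟩, hu⟩
  change u (algebraMap k S c) = _
  rw [IsScalarTower.algebraMap_apply k R S, hu, AlgHom.commutes]

theorem tail (hD : S_dense) (k : Type) [Field k] [IsAlgClosed k] (v : AbsoluteValue k ℝ)
    (hv : IsNonarchimedean v) (hnt : ∃ c, c ≠ 0 ∧ v c < 1) (ρ : ℝ) (hρ : 0 < ρ)
    (A : Type) [CommRing A] [IsDomain A] [Algebra k A] [Algebra.FiniteType k A]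
    {d : Type} [Fintype d] (t : d → A) (b0 : A →ₐ[k] k) (hb0 : ∀ j, b0 (t j) = 0)
    (R : Type) [CommRing R] [Algebra k R] {σ : Type} [Fintype σ] (θ : σ → R)
    (hθ : ∀ g, ∃ P : MvPolynomial σ k, MvPolynomial.aeval θ P = g)
    (π : A →ₐ[k] R) (I : Set R) (h' : R) (S : Type) [CommRing S] [Algebra R S] [Algebra k S]
    [IsScalarTower k R S] [IsLocalization.Away h' S] (γ : R →ₐ[k] S)
    (D : Set (A →ₐ[k] k)) (hDdef : ∀ b, b ∈ D ↔ ∀ j, v (b (t j)) ≤ ρ)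
    (o : (A →ₐ[k] k) → ℕ → (R →ₐ[k] k)) (z : (A →ₐ[k] k) → (R →ₐ[k] k))
    (ho1 : ∀ b ∈ D, ∀ n l, v (o b n (θ l)) ≤ 1)
    (ho2 : ∀ b ∈ D, ∀ n a, o b n (π a) = b a)
    (ho3 : ∀ b ∈ D, ∀ n, ∀ g ∈ I, o b n g = 0)
    (ho4 : ∀ b ∈ D, ∀ n (u : S →ₐ[k] k), (∀ g, u (algebraMap R S g) = o b n g) →
      ∀ g, o b (n + 1) g = u (γ g))
    (hz1 : ∀ b ∈ D, ∃ m, ∀ n, m ≤ n → o b n = z b)
    (hz2 : ∀ ε : ℝ, 0 < ε → ∃ m0, ∀ b ∈ D, ∀ n, m0 ≤ n → ∀ l,
      v (o b n (θ l) - z b (θ l)) < ε)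
    (hz3 : ∀ b ∈ D, ∀ b' ∈ D, ∀ r : ℝ, 0 ≤ r → (∀ j, v (b (t j) - b' (t j)) ≤ r) →
      ∀ l, v (z b (θ l) - z b' (θ l)) ≤ r)
    (hz4 : z b0 h' ≠ 0)
    (hiso : ∀ Q Q' : Ideal S, Q.IsPrime → Q'.IsPrime → Q ≤ Q' →
      (∀ g ∈ I, algebraMap R S g ∈ Q) → (∀ g, γ g ∈ Q' → γ g ∈ Q) →
      (∀ a, algebraMap R S (π a) ∈ Q' → a = 0) → Q = Q') :
    ∃ m, ∀ a : A, a ≠ 0 → ∃ b ∈ D, b a ≠ 0 ∧ o b (m + 1) = o b m := by
  classical
  have hRN : IsNoetherianRing R := isNoetherianRing_of_surjective (MvPolynomial σ k) R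
    (MvPolynomial.aeval θ).toRingHom hθ
  have hSN : IsNoetherianRing S := IsLocalization.isNoetherianRing (Submonoid.powers h') S hRN
  let ball : (A →ₐ[k] k) → ℝ → Set (A →ₐ[k] k) :=
    fun b ε => {b' | b' ∈ D ∧ ∀ j, v (b' (t j) - b (t j)) ≤ ε}
  have hself : ∀ b ∈ D, ∀ ε : ℝ, 0 < ε → b ∈ ball b ε := fun b hb ε hε =>
    ⟨hb, fun j => by simpa using hε.le⟩
  have hsub : ∀ b ε b', b' ∈ ball b ε → ∀ ε', ε' ≤ ε → ball b' ε' ⊆ ball b ε :=
    fun b ε b' hb' ε' hε b'' hb'' => ⟨hb''.1, fun j =>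
      nonarch_sub hv _ _ _ ((hb''.2 j).trans hε) (hb'.2 j)⟩
  have hdense : ∀ b ∈ D, ∀ ε : ℝ, 0 < ε → ∀ a : A, a ≠ 0 → ∃ b' ∈ ball b ε, b' a ≠ 0 := by
    intro b hb ε hε a ha
    obtain ⟨b', h1, h2⟩ := hD k v hnt A b (Finset.univ.image t) (min ε ρ) (lt_min hε hρ) a ha
    have h3 : ∀ j, v (b' (t j) - b (t j)) < min ε ρ := fun j => h2 _ (by simp)
    refine ⟨b', ⟨(hDdef b').2 fun j => ?_, fun j => ((h3 j).le.trans (min_le_left _ _))⟩, h1⟩
    have := nonarch_sub hv (b' (t j)) (b (t j)) 0 ((h3 j).le.trans (min_le_right _ _))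
      (by simpa using (hDdef b).1 hb j)
    simpa using this
  have hzb : ∀ b ∈ D, ∀ l, v (z b (θ l)) ≤ 1 := fun b hb l => by
    obtain ⟨m, hm⟩ := hz1 b hb
    rw [← hm m le_rfl]; exact ho1 b hb m l
  have hznear : ∀ b ∈ D, ∀ g, z b g ≠ 0 → ∃ δ : ℝ, 0 < δ ∧ ∀ b' ∈ ball b δ, z b' g ≠ 0 := by
    intro b hb g hg
    obtain ⟨δ, hδ, H⟩ := ne_zero_near v θ hθ (z b) (hzb b hb) g hg
    exact ⟨δ, hδ, fun b' hb' => H _ (hzb b' hb'.1) (hz3 b' hb'.1 b hb δ hδ.le hb'.2)⟩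
  let J : (A →ₐ[k] k) → ℝ → Ideal S := fun b ε =>
    ⨅ b' ∈ ball b ε, ⨅ u : S →ₐ[k] k, ⨅ _ : (∀ g, u (algebraMap R S g) = z b' g),
      RingHom.ker u
  have hJ : ∀ b ε s, s ∈ J b ε ↔ ∀ b' ∈ ball b ε, ∀ u : S →ₐ[k] k,
      (∀ g, u (algebraMap R S g) = z b' g) → u s = 0 := by
    intro b ε s
    simp only [J, Submodule.mem_iInf, RingHom.mem_ker]
  let 𝓘 : Set (Ideal S) := {Q | ∃ b ∈ D, ∃ ε : ℝ, 0 < ε ∧ (∀ b' ∈ ball b ε, z b' h' ≠ 0) ∧
    Q = J b ε}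
  have hb0D : b0 ∈ D := (hDdef b0).2 fun j => by simpa [hb0] using hρ.le
  have hne : 𝓘.Nonempty := by
    obtain ⟨δ, hδ, H⟩ := hznear b0 hb0D h' hz4
    exact ⟨_, b0, hb0D, δ, hδ, H, rfl⟩
  obtain ⟨Q', ⟨b1, hb1, ε1, hε1, hh1, hQ'⟩, hmax⟩ :=
    (set_has_maximal_iff_noetherian.2 (inferInstance : IsNoetherian S S)) 𝓘 hne
  change Ideal S at Q'
  -- clearing denominators
  have hden : ∀ s : S, ∃ a : R, ∀ (w : R →ₐ[k] k) (u : S →ₐ[k] k),
      (∀ g, u (algebraMap R S g) = w g) → (u s ≠ 0 ↔ w a ≠ 0) := by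
    intro s
    obtain ⟨⟨a, _, N, rfl⟩, ha⟩ := IsLocalization.surj (Submonoid.powers h') s
    refine ⟨a, fun w u hu => ?_⟩
    have h1 := congr(u $ha)
    rw [map_mul, hu, hu] at h1
    have h2 : IsUnit (u (algebraMap R S (h' ^ N))) :=
      (IsLocalization.map_units S (⟨h' ^ N, N, rfl⟩ : Submonoid.powers h')).map u
    rw [hu] at h2
    simp only at h1
    rw [← h1]
    exact ⟨fun h => mul_ne_zero h h2.ne_zero, fun h => left_ne_zero_of_mul h⟩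
  have hQ'ne : Q' ≠ ⊤ := by
    rw [Ne, Ideal.eq_top_iff_one, hQ', hJ]
    intro H
    obtain ⟨u, hu⟩ := exists_lift_away (S := S) h' (z b1) (hh1 b1 (hself b1 hb1 ε1 hε1))
    simpa using H b1 (hself b1 hb1 ε1 hε1) u hu
  have hprime : Q'.IsPrime := by
    refine ⟨hQ'ne, fun {s s'} hss' => ?_⟩
    by_contra hcon
    push Not at hcon
    obtain ⟨hs, hs'⟩ := hcon
    rw [hQ', hJ] at hs
    push Not at hs
    obtain ⟨b2, hb2, u2, hu2, hs2⟩ := hs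
    obtain ⟨a, ha⟩ := hden s
    obtain ⟨δ, hδ, H⟩ := hznear b2 hb2.1 a ((ha _ u2 hu2).1 hs2)
    have hsb := hsub b1 ε1 b2 hb2 (min δ ε1) (min_le_right _ _)
    have hmem : J b2 (min δ ε1) ∈ 𝓘 :=
      ⟨b2, hb2.1, _, lt_min hδ hε1, fun b' hb' => hh1 b' (hsb hb'), rfl⟩
    refine hmax _ hmem (lt_of_le_of_ne (fun x hx => ?_) fun e => hs' ?_)
    · rw [hQ', hJ] at hx
      rw [hJ]
      exact fun b' hb' => hx b' (hsb hb')
    · rw [e, hJ]
      intro b' hb' u hu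
      have h1 : u s ≠ 0 := (ha _ u hu).2 (H b' ⟨hb'.1, fun j => (hb'.2 j).trans (min_le_left _ _)⟩)
      rw [hQ', hJ] at hss'
      have h2 := hss' b' (hsb hb') u hu
      rw [map_mul] at h2
      exact (mul_eq_zero.1 h2).resolve_left h1
  have hQI : ∀ g ∈ I, algebraMap R S g ∈ Q' := by
    intro g hg
    rw [hQ', hJ]
    intro b hb u hu
    obtain ⟨m, hm⟩ := hz1 b hb.1
    rw [hu, ← hm m le_rfl, ho3 b hb.1 m g hg]
  have hQγ : ∀ g, γ g - algebraMap R S g ∈ Q' := by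
    intro g
    rw [hQ', hJ]
    intro b hb u hu
    obtain ⟨m, hm⟩ := hz1 b hb.1
    have := ho4 b hb.1 m u (by rw [hm m le_rfl]; exact hu) g
    rw [map_sub, hu, ← this, hm _ (Nat.le_succ m), sub_self]
  have hQπ : ∀ a, algebraMap R S (π a) ∈ Q' → a = 0 := by
    intro a ha
    by_contra h0
    obtain ⟨b, hb, hba⟩ := hdense b1 hb1 ε1 hε1 a h0
    obtain ⟨u, hu⟩ := exists_lift_away (S := S) h' (z b) (hh1 b hb)
    rw [hQ', hJ] at ha
    have := ha b hb u hu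
    obtain ⟨m, hm⟩ := hz1 b hb.1
    rw [hu, ← hm m le_rfl, ho2 b hb.1] at this
    exact hba this
  let 𝔞 : Ideal S := Ideal.span (algebraMap R S '' I ∪ {s | s ∈ Q' ∧ ∃ g, γ g = s})
  have h𝔞 : ∀ P : Ideal S, 𝔞 ≤ P ↔ (∀ g ∈ I, algebraMap R S g ∈ P) ∧ ∀ g, γ g ∈ Q' → γ g ∈ P := by
    intro P
    rw [Ideal.span_le, Set.union_subset_iff]
    refine and_congr ⟨fun h g hg => h ⟨g, hg, rfl⟩, ?_⟩ ⟨fun h g hg => h ⟨hg, g, rfl⟩, ?_⟩
    · rintro h _ ⟨g, hg, rfl⟩; exact h g hg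
    · rintro h _ ⟨hg, g, rfl⟩; exact h g hg
  have huniq : ∀ Q ∈ 𝔞.minimalPrimes, Q ≤ Q' → Q = Q' := fun Q hQ hle =>
    hiso Q Q' hQ.1.1 hprime hle ((h𝔞 Q).1 hQ.1.2).1 ((h𝔞 Q).1 hQ.1.2).2 hQπ
  obtain ⟨s, hs1, hs2⟩ : ∃ s, s ∉ Q' ∧ ∀ Q ∈ 𝔞.minimalPrimes, Q ≠ Q' → s ∈ Q := by
    have hfin := 𝔞.finite_minimalPrimes_of_isNoetherianRing S
    by_contra hcon
    push Not at hcon
    have hle : (hfin.toFinset.erase Q').inf id ≤ Q' := by
      intro x hx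
      by_contra hx'
      obtain ⟨Q, hQ1, hQ2, hQ3⟩ := hcon x hx'
      exact hQ3 (Finset.inf_le (f := id) (s := hfin.toFinset.erase Q') (b := Q)
        (by simp [hQ1, hQ2]) hx)
    obtain ⟨Q, hQ, hQle⟩ := (hprime.inf_le' (s := hfin.toFinset.erase Q') (f := id)).1 hle
    simp only [Finset.mem_erase, Set.Finite.mem_toFinset] at hQ
    exact hQ.1 (huniq Q hQ.2 hQle)
  rw [hQ', hJ] at hs1
  push Not at hs1
  obtain ⟨b2, hb2, u2, hu2, hs3⟩ := hs1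
  obtain ⟨a, ha⟩ := hden s
  have hg2 : z b2 (a * h') ≠ 0 := by
    rw [map_mul]; exact mul_ne_zero ((ha _ u2 hu2).1 hs3) (hh1 b2 hb2)
  obtain ⟨δ, hδ, H⟩ := ne_zero_near v θ hθ (z b2) (hzb b2 hb2.1) _ hg2
  obtain ⟨m0, hm0⟩ := hz2 δ hδ
  have hsb := hsub b1 ε1 b2 hb2 (min δ ε1) (min_le_right _ _)
  have step : ∀ b ∈ ball b2 (min δ ε1), ∀ n, m0 ≤ n → o b (n + 1) = z b → o b n = z b := by
    intro b hb n hn hn1
    have h1 : o b n (a * h') ≠ 0 := H _ (ho1 b hb.1 n) fun l =>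
      nonarch_sub hv _ _ _ (hm0 b hb.1 n hn l).le
        (hz3 b hb.1 b2 hb2.1 δ hδ.le (fun j => (hb.2 j).trans (min_le_left _ _)) l)
    rw [map_mul] at h1
    obtain ⟨u, hu⟩ := exists_lift_away (S := S) h' (o b n) (right_ne_zero_of_mul h1)
    have h2 : u s ≠ 0 := (ha _ u hu).2 (left_ne_zero_of_mul h1)
    have h3 : ∀ g, u (γ g) = z b g := fun g => by rw [← ho4 b hb.1 n u hu g, hn1]
    obtain ⟨uz, huz⟩ := exists_lift_away (S := S) h' (z b) (hh1 b (hsb hb))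
    have hker : 𝔞 ≤ RingHom.ker u := by
      rw [h𝔞]
      refine ⟨fun g hg => ?_, fun g hg => ?_⟩
      · rw [RingHom.mem_ker, hu, ho3 b hb.1 n g hg]
      · rw [RingHom.mem_ker, h3, ← huz]
        have : algebraMap R S g ∈ Q' := by simpa using sub_mem hg (hQγ g)
        rw [hQ', hJ] at this
        exact this b (hsb hb) uz huz
    have : (RingHom.ker u).IsPrime := RingHom.ker_isPrime u
    obtain ⟨Q, hQ, hQle⟩ := Ideal.exists_minimalPrimes_le hker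
    have hQQ : Q = Q' := by
      by_contra hne
      exact h2 (hQle (hs2 Q hQ hne))
    ext g
    have h4 : u (γ g - algebraMap R S g) = 0 := hQle (hQQ ▸ hQγ g)
    rw [map_sub, h3, hu, sub_eq_zero] at h4
    exact h4.symm
  refine ⟨m0, fun a' ha' => ?_⟩
  obtain ⟨b, hb, hba⟩ := hdense b2 hb2.1 _ (lt_min hδ hε1) a' ha'
  obtain ⟨m, hm⟩ := hz1 b hb.1
  have hall : ∀ j n, m0 ≤ n → m ≤ n + j → o b n = z b := by
    intro j
    induction j with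
    | zero => exact fun n _ h => hm n h
    | succ j ih => exact fun n hn h => step b hb n hn (ih (n + 1) (by omega) (by omega))
  exact ⟨b, hb.1, hba, by rw [hall m _ (Nat.le_succ _) (by omega), hall m _ le_rfl (by omega)]⟩

end Pool.Agent.H505Z.NP
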