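import Pool.Agent.H505Z.NP.Iso
import Pool.Agent.H505Z.NP.Tail
import Pool.Agent.H177Z.NPDyn

/-! The core of the proof: a section whose specializations are all preperiodic is preperiodic. -/

set_option autoImplicit false

open AlgebraicGeometry CategoryTheory CategoryTheory.Limits TopologicalSpace Opposite

namespace Pool.Agent.H505Z.NP

/-- The `k`-algebra structure on sections of a `k`-scheme. -/
@[reducible] noncomputable def algStr {k : Type} [Field k] {X : Scheme.{0}}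
    (s : X ⟶ Spec (CommRingCat.of k)) (U : X.Opens) : Algebra k Γ(X, U) := (str s U).toAlgebra

lemma finiteType_str {k : Type} [Field k] {X : Scheme.{0}} (s : X ⟶ Spec (CommRingCat.of k))
    [LocallyOfFiniteType s] {U : X.Opens} (hU : IsAffineOpen U) :
    letI := algStr s U; Algebra.FiniteType k Γ(X, U) :=
  RingHom.FiniteType.comp (s.finiteType_appLE (isAffineOpen_top _) hU le_top)
    (RingHom.FiniteType.of_surjective _
      (Scheme.ΓSpecIso (CommRingCat.of k)).symm.commRingCatIsoToRingEquiv.surjective)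

/-- Evaluation at a `k`-point as a `k`-algebra map. -/
noncomputable def evA {k : Type} [Field k] {X : Scheme.{0}} (s : X ⟶ Spec (CommRingCat.of k))
    (U : X.Opens) (y : Spec (CommRingCat.of k) ⟶ X) (hy : y ≫ s = 𝟙 _) (h : pt y ∈ U) :
    letI := algStr s U; Γ(X, U) →ₐ[k] k :=
  letI := algStr s U
  { ev y U h with commutes' := ev_str s U y hy h }

lemma gens {k R : Type} [Field k] [CommRing R] [Algebra k R] [Algebra.FiniteType k R]
    (w0 : R →ₐ[k] k) : ∃ (r : ℕ) (θ : Fin r → R), (∀ l, w0 (θ l) = 0) ∧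
      ∀ g, ∃ P : MvPolynomial (Fin r) k, MvPolynomial.aeval θ P = g := by
  obtain ⟨n, f, hf⟩ := Algebra.FiniteType.iff_quotient_mvPolynomial''.1
    (inferInstance : Algebra.FiniteType k R)
  refine ⟨n, fun l => f (MvPolynomial.X l) - algebraMap k R (w0 (f (MvPolynomial.X l))),
    fun l => by simp, fun g => ?_⟩
  obtain ⟨P, rfl⟩ := hf g
  refine ⟨MvPolynomial.aeval
    (fun l => MvPolynomial.X l + MvPolynomial.C (w0 (f (MvPolynomial.X l)))) P, ?_⟩
  induction P using MvPolynomial.induction_on with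
  | C a => simp
  | add p q hp hq => simp only [map_add, hp, hq]
  | mul_X p i hp => simp only [map_mul, hp]; simp

lemma local_data {X : Scheme.{0}} (G : X ⟶ X) {U : X.Opens} (hU : IsAffineOpen U) (x0 : X)
    (h0 : x0 ∈ U) (hG : G x0 ∈ U) {σ : Type} [Fintype σ] (θ : σ → Γ(X, U)) :
    ∃ (h : Γ(X, U)) (a : σ → Γ(X, U)), x0 ∈ X.basicOpen h ∧
      ∀ (E : Type) [Field E] (y : Spec (CommRingCat.of E) ⟶ X) (hy : pt y ∈ U),
        ev y U hy h ≠ 0 → ∃ hy' : pt (y ≫ G) ∈ U,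
          ∀ l, ev (y ≫ G) U hy' (θ l) * ev y U hy h = ev y U hy (a l) := by
  obtain ⟨g, hg1, hg2⟩ := hU.exists_basicOpen_le (V := G ⁻¹ᵁ U) ⟨x0, hG⟩ h0
  have := hU.isLocalization_basicOpen g
  obtain ⟨⟨_, N, rfl⟩, hb⟩ := IsLocalization.exist_integer_multiples_of_finite
    (S := Γ(X, X.basicOpen g)) (Submonoid.powers g)
    (fun l => G.appLE U (X.basicOpen g) hg1 (θ l))
  choose a ha using hb
  refine ⟨g * g ^ N, fun l => g * a l, ?_, fun E _ y h hne => ?_⟩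
  · rw [← pow_succ', Scheme.basicOpen_pow _ _ (Nat.succ_pos _)]
    exact hg2
  · have h0 : ev y U h g ≠ 0 := by
      rw [map_mul] at hne; exact left_ne_zero_of_mul hne
    have h1 : pt y ∈ X.basicOpen g := (mem_basicOpen_iff y U h g).2 h0
    have h2 : pt (y ≫ G) ∈ U := by rw [pt_comp]; exact hg1 h1
    refine ⟨h2, fun l => ?_⟩
    have e1 : ∀ s, ev y _ h1 (algebraMap Γ(X, U) Γ(X, X.basicOpen g) s) = ev y U h s :=
      fun s => ev_res y (X.basicOpen_le g) h1 s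
    have e2 := congr(ev y _ h1 $(ha l))
    rw [Algebra.smul_def, map_mul, e1, e1, ev_appLE y G hg1 h1 h2] at e2
    rw [map_mul, map_mul, e2]
    ring

lemma const_coeff {k R : Type} [Field k] [CommRing R] [Algebra k R] {σ : Type} (θ : σ → R)
    (w0 : R →ₐ[k] k) (h : ∀ l, w0 (θ l) = 0) (P : MvPolynomial σ k) :
    MvPolynomial.constantCoeff P = w0 (MvPolynomial.aeval θ P) := by
  rw [algHom_aeval]
  simp [h]

lemma poly_small {k : Type} [Field k] {v : AbsoluteValue k ℝ} (hv : IsNonarchimedean v)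
    {σ : Type} [Fintype σ] (P : MvPolynomial σ k) (hP : ∀ m, v (P.coeff m) ≤ 1) (x : σ → k)
    {ρ : ℝ} (h0 : 0 ≤ ρ) (h1 : ρ ≤ 1) (hx : ∀ l, v (x l) ≤ ρ) :
    v (MvPolynomial.eval x P - MvPolynomial.constantCoeff P) ≤ ρ := by
  have := Pool.Agent.H177Z.NPDyn.poly_lip hv P hP x 0 (fun l => (hx l).trans h1) (by simp) ρ h0
    (by simpa using hx)
  simpa using this

theorem core (hB : S_B) (hD : S_dense) (hdyn : S_dyn) (k : Type) [Field k] [IsAlgClosed k]
    [CharZero k] [Algebra.IsAlgebraic ℚ k] {B X : Scheme.{0}} (s : B ⟶ Spec (CommRingCat.of k))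
    (p : X ⟶ B) (G : X ⟶ X) (x : B ⟶ X) [IsIntegral B] [LocallyOfFiniteType s] [IsProper p]
    {ι : Type} [Fintype ι] (c : Coord X ι) (hc : c.Good)
    (hgen : ∀ (B' : B.Opens), IsAffineOpen B' → ∀ i, IsAffineOpen (p ⁻¹ᵁ B' ⊓ c.O i) ∧
        ∀ g : Γ(X, p ⁻¹ᵁ B' ⊓ c.O i), ∃ P : MvPolynomial ι Γ(B, B'),
          g = MvPolynomial.eval₂ (p.appLE B' _ inf_le_left).hom
            (fun l => X.presheaf.map (homOfLE inf_le_right).op (c.r l i)) P)
    (hG : G ≫ p = p) (hx : x ≫ p = 𝟙 B) (Y : Set X) (hYc : IsClosed Y)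
    (hY1 : ∀ n b, it G n (x b) ∈ Y) (hY2 : ∀ M, ∀ y ∈ Y, ∃ ξ ∈ Y, it G M ξ = y)
    (b0 : Spec (CommRingCat.of k) ⟶ B) (hb0 : b0 ≫ s = 𝟙 _) (hfix : b0 ≫ x ≫ G = b0 ≫ x)
    (hpre : ∀ b : Spec (CommRingCat.of k) ⟶ B, b ≫ s = 𝟙 _ →
      ∃ m j, 0 < j ∧ b ≫ x ≫ it G (m + j) = b ≫ x ≫ it G m) :
    ∃ n m, n ≠ m ∧ x ≫ it G n = x ≫ it G m := by
  classical
  obtain ⟨i0, hi0⟩ := hc.1 (pt (b0 ≫ x))
  obtain ⟨B', hB', hb0B, hB'le⟩ := exists_isAffineOpen_mem_and_subset (x := pt b0)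
    (U := x ⁻¹ᵁ c.O i0) (by rw [pt_comp] at hi0; exact hi0)
  obtain ⟨U, hUdef⟩ : ∃ U, U = p ⁻¹ᵁ B' ⊓ c.O i0 := ⟨_, rfl⟩
  have hU : IsAffineOpen U := hUdef ▸ (hgen B' hB' i0).1
  have hUB : U ≤ p ⁻¹ᵁ B' := hUdef ▸ inf_le_left
  have hxU : B' ≤ x ⁻¹ᵁ U := by
    intro b hb
    subst hUdef
    refine ⟨?_, hB'le hb⟩
    change p (x b) ∈ B'
    rw [← Scheme.Hom.comp_apply, hx]
    exact hb
  have hxs : x ≫ p ≫ s = s := by rw [reassoc_of% hx]
  have : Nonempty B' := ⟨⟨_, hb0B⟩⟩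
  let algA := algStr s B'
  let algR := algStr (p ≫ s) U
  have := finiteType_str s hB'
  have := finiteType_str (p ≫ s) hU
  have : CharZero Γ(B, B') := charZero_of_injective_algebraMap (algebraMap k Γ(B, B')).injective
  have hy0U : pt (b0 ≫ x) ∈ U := by rw [pt_comp]; exact hxU hb0B
  have hy0s : (b0 ≫ x) ≫ p ≫ s = 𝟙 _ := by rw [Category.assoc, hxs, hb0]
  let w0 : Γ(X, U) →ₐ[k] k := evA (p ≫ s) U (b0 ≫ x) hy0s hy0U
  let b0A : Γ(B, B') →ₐ[k] k := evA s B' b0 hb0 hb0B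
  obtain ⟨r, θ, hθ0, hθ⟩ := gens w0
  obtain ⟨d, t, ht0, ht⟩ := gens b0A
  let χ : Γ(X, U) →ₐ[k] Γ(B, B') :=
    { (x.appLE U B' hxU).hom with commutes' := appLE_str x s (p ≫ s) hxs hxU }
  let π : Γ(B, B') →ₐ[k] Γ(X, U) :=
    { (p.appLE B' U hUB).hom with commutes' := appLE_str p (p ≫ s) s rfl hUB }
  have hw0χ : b0A.comp χ = w0 := by
    ext g; exact ev_appLE b0 x hxU hb0B hy0U g
  have hfixit : ∀ n, (b0 ≫ x) ≫ it G n = b0 ≫ x := by
    intro n
    induction n with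
    | zero => simp [it_zero]
    | succ n ih => rw [it_succ, ← Category.assoc, ih, Category.assoc, hfix]
  have hfixpt : ∀ n, it G n (pt (b0 ≫ x)) ∈ U := fun n => by
    rw [← pt_comp, hfixit]; exact hy0U
  obtain ⟨h1, a1, hh1, hloc⟩ := local_data G hU (pt (b0 ≫ x)) hy0U
    (by simpa [it_one] using hfixpt 1) θ
  have hc1 : w0 h1 ≠ 0 := (mem_basicOpen_iff _ U hy0U h1).1 hh1
  obtain ⟨hP, hhP⟩ := hθ ((w0 h1)⁻¹ • h1)
  choose aP haP using fun l => hθ ((w0 h1)⁻¹ • a1 l)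
  choose χP hχP using fun l => ht (χ (θ l))
  have ha0 : ∀ l, w0 (a1 l) = 0 := by
    intro l
    obtain ⟨hy', H⟩ := hloc k (b0 ≫ x) hy0U hc1
    have e : (b0 ≫ x) ≫ G = b0 ≫ x := by rw [Category.assoc, hfix]
    have := H l
    rw [ev_congr e U hy' hy0U] at this
    change w0 (θ l) * _ = w0 (a1 l) at this
    rw [← this, hθ0, zero_mul]
  obtain ⟨v, ρ, hv, hρ0, hρ1, hnt, hC, haC, hhC, H⟩ := hdyn k (Fin r) aP hP
    (Finset.univ.biUnion fun l => (χP l).coeffs)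
    (fun l => by rw [const_coeff θ w0 hθ0, haP, map_smul, ha0, smul_zero])
    (by rw [const_coeff θ w0 hθ0, hhP, map_smul, smul_eq_mul, inv_mul_cancel₀ hc1])
  have hχC : ∀ l m, v ((χP l).coeff m) ≤ 1 := by
    intro l m
    by_cases h0 : (χP l).coeff m = 0
    · simp [h0]
    · exact hC _ (Finset.mem_biUnion.2 ⟨l, Finset.mem_univ _,
        MvPolynomial.coeff_mem_coeffs m h0⟩)
  let S0 := {w : Γ(X, U) →ₐ[k] k // ∀ l, v (w (θ l)) ≤ ρ}
  let Pt : (Γ(X, U) →ₐ[k] k) → (Spec (CommRingCat.of k) ⟶ X) := fun w => ofHom hU w.toRingHom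
  have hPtU : ∀ w, pt (Pt w) ∈ U := fun w => pt_ofHom_mem hU _
  have hPtev : ∀ w g, ev (Pt w) U (hPtU w) g = w g := fun w g =>
    congr($(ev_ofHom hU w.toRingHom (hPtU w)) g)
  have hPts : ∀ w, Pt w ≫ p ≫ s = 𝟙 _ := fun w => ofHom_comp_str (p ≫ s) hU _ w.commutes
  have hPtinj : ∀ w w', Pt w = Pt w' → w = w' := fun w w' e => by
    ext g; rw [← hPtev, ← hPtev, ev_congr e]
  have hg : ∀ w : S0, ∃ w' : S0, Pt w'.1 = Pt w.1 ≫ G ∧ ∀ l, w'.1 (θ l) *
      MvPolynomial.eval (fun l => w.1 (θ l)) hP = MvPolynomial.eval (fun l => w.1 (θ l)) (aP l) := by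
    intro w
    have e1 : v (MvPolynomial.eval (fun l => w.1 (θ l)) hP) = 1 := by
      refine Pool.Agent.H177Z.NPDyn.na_eq_one hv ?_
      have := poly_small hv hP hhC (fun l => w.1 (θ l)) hρ0.le hρ1.le w.2
      rw [const_coeff θ w0 hθ0, hhP, map_smul, smul_eq_mul, inv_mul_cancel₀ hc1] at this
      rw [v.map_sub]
      exact this.trans_lt hρ1
    have e2 : MvPolynomial.eval (fun l => w.1 (θ l)) hP = (w0 h1)⁻¹ * w.1 h1 := by
      rw [← algHom_aeval, hhP, map_smul, smul_eq_mul]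
    have e3 : w.1 h1 ≠ 0 := by
      intro h0
      rw [e2, h0, mul_zero, map_zero] at e1
      exact zero_ne_one e1
    obtain ⟨hy', H'⟩ := hloc k (Pt w.1) (hPtU _) (by rw [hPtev]; exact e3)
    have hs' : (Pt w.1 ≫ G) ≫ p ≫ s = 𝟙 _ := by rw [Category.assoc, reassoc_of% hG, hPts]
    let w' : Γ(X, U) →ₐ[k] k := evA (p ≫ s) U (Pt w.1 ≫ G) hs' hy'
    have e4 : ∀ l, w' (θ l) * MvPolynomial.eval (fun l => w.1 (θ l)) hP =
        MvPolynomial.eval (fun l => w.1 (θ l)) (aP l) := by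
      intro l
      have := H' l
      rw [hPtev, hPtev] at this
      rw [e2, ← algHom_aeval, haP, map_smul, smul_eq_mul, ← this]
      change ev _ _ hy' _ * _ = _
      ring
    refine ⟨⟨w', fun l => ?_⟩, ofHom_ev hU _ hy', e4⟩
    have := poly_small hv (aP l) (haC l) (fun l => w.1 (θ l)) hρ0.le hρ1.le w.2
    rw [const_coeff θ w0 hθ0, haP, map_smul, ha0, smul_zero, sub_zero, ← e4, map_mul, e1,
      mul_one] at this
    exact this
  choose g hg1 hg2 using hg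
  obtain ⟨hLip, N, hN, hper, hconv⟩ := H S0 g (fun w l => w.1 (θ l)) (fun w w' e => by
    refine Subtype.ext (AlgHom.ext fun a => ?_)
    obtain ⟨P, rfl⟩ := hθ a
    rw [algHom_aeval, algHom_aeval]
    exact congr(MvPolynomial.eval $e P)) (fun w => w.2) hg2
  have hgit : ∀ n (w : S0), Pt (g^[n] w).1 = Pt w.1 ≫ it G n := by
    intro n w
    induction n with
    | zero => simp [it_zero]
    | succ n ih => rw [Function.iterate_succ_apply', hg1, ih, it_succ, Category.assoc]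
  have hLipit : ∀ n (w w' : S0) (r : ℝ), (∀ l, v (w.1 (θ l) - w'.1 (θ l)) ≤ r) →
      ∀ l, v ((g^[n] w).1 (θ l) - (g^[n] w').1 (θ l)) ≤ r := by
    intro n w w' r hr
    induction n with
    | zero => exact hr
    | succ n ih =>
      rw [Function.iterate_succ_apply', Function.iterate_succ_apply']
      exact hLip _ _ r ih
  let D : Set (Γ(B, B') →ₐ[k] k) := {b | ∀ j, v (b (t j)) ≤ ρ}
  have hχev : ∀ (b : Γ(B, B') →ₐ[k] k) l,
      b.comp χ (θ l) = MvPolynomial.eval (fun j => b (t j)) (χP l) := fun b l => by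
    rw [← algHom_aeval, hχP]; rfl
  have hχD : ∀ b ∈ D, ∀ l, v (b.comp χ (θ l)) ≤ ρ := by
    intro b hb l
    have := poly_small hv (χP l) (hχC l) (fun j => b (t j)) hρ0.le hρ1.le hb
    rw [const_coeff t b0A ht0, hχP, ← hχev] at this
    have e : b0A (χ (θ l)) = 0 := by rw [← hθ0 l, ← hw0χ]; rfl
    rwa [e, sub_zero] at this
  let Pb : (Γ(B, B') →ₐ[k] k) → (Spec (CommRingCat.of k) ⟶ B) := fun b => ofHom hB' b.toRingHom
  have hPbU : ∀ b, pt (Pb b) ∈ B' := fun b => pt_ofHom_mem hB' _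
  have hPbev : ∀ b a, ev (Pb b) B' (hPbU b) a = b a := fun b a =>
    congr($(ev_ofHom hB' b.toRingHom (hPbU b)) a)
  have hPbs : ∀ b, Pb b ≫ s = 𝟙 _ := fun b => ofHom_comp_str s hB' _ b.commutes
  have hPbx : ∀ b, Pt (b.comp χ) = Pb b ≫ x := fun b => by
    have h2 : pt (Pb b ≫ x) ∈ U := by rw [pt_comp]; exact hxU (hPbU b)
    refine ext_ev hU (hPtU _) h2 ?_
    ext a
    rw [hPtev, ← ev_appLE (Pb b) x hxU (hPbU b) h2, hPbev]
    rfl
  let o : (Γ(B, B') →ₐ[k] k) → ℕ → (Γ(X, U) →ₐ[k] k) := fun b n =>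
    if hb : b ∈ D then ((g^[N])^[n] ⟨b.comp χ, hχD b hb⟩).1 else b.comp χ
  have ho : ∀ b (hb : b ∈ D) n, o b n = ((g^[N])^[n] ⟨b.comp χ, hχD b hb⟩).1 :=
    fun b hb n => dif_pos hb
  have hoP : ∀ b ∈ D, ∀ n, Pt (o b n) = Pb b ≫ x ≫ it G (N * n) := fun b hb n => by
    rw [ho b hb, ← Function.iterate_mul, hgit, hPbx, Category.assoc]
  have hfixS : ∀ b (hb : b ∈ D), ∃ m, g^[N] ((g^[N])^[m] ⟨b.comp χ, hχD b hb⟩) =
      (g^[N])^[m] ⟨b.comp χ, hχD b hb⟩ := by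
    intro b hb
    obtain ⟨m, j, hj, e⟩ := hpre (Pb b) (hPbs b)
    have e1 : g^[j] (g^[m] ⟨b.comp χ, hχD b hb⟩) = g^[m] ⟨b.comp χ, hχD b hb⟩ := by
      refine Subtype.ext (hPtinj _ _ ?_)
      rw [← Function.iterate_add_apply, hgit, hgit, hPbx, Category.assoc, Category.assoc,
        add_comm, e]
    have e2 := hper _ j hj e1
    refine ⟨m, ?_⟩
    obtain ⟨q, hq⟩ : ∃ q, N * m = q + m := ⟨N * m - m, by
      have : m ≤ N * m := Nat.le_mul_of_pos_left m hN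
      omega⟩
    rw [← Function.iterate_mul, hq, Function.iterate_add_apply, ← Function.iterate_add_apply,
      add_comm, Function.iterate_add_apply, e2]
  have hz : ∀ b, ∃ z, ∀ hb : b ∈ D, ∃ m, g^[N] ((g^[N])^[m] ⟨b.comp χ, hχD b hb⟩) =
      (g^[N])^[m] ⟨b.comp χ, hχD b hb⟩ ∧ z = o b m ∧ ∀ n, m ≤ n → o b n = z := by
    intro b
    by_cases hb : b ∈ D
    · obtain ⟨m, hm⟩ := hfixS b hb
      refine ⟨o b m, fun _ => ⟨m, hm, rfl, fun n hn => ?_⟩⟩
      obtain ⟨q, rfl⟩ := Nat.exists_eq_add_of_le' hn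
      rw [ho b hb, ho b hb, Function.iterate_add_apply, Function.iterate_fixed hm]
    · exact ⟨b.comp χ, fun h => absurd h hb⟩
  choose z hz using hz
  obtain ⟨h', hh'1, hh'2⟩ := hU.exists_basicOpen_le (V := it G N ⁻¹ᵁ U)
    ⟨pt (b0 ≫ x), hfixpt N⟩ hy0U
  have hV := hU.basicOpen h'
  have := hU.isLocalization_basicOpen h'
  let algS := algStr (p ≫ s) (X.basicOpen h')
  have : IsScalarTower k Γ(X, U) Γ(X, X.basicOpen h') :=
    IsScalarTower.of_algebraMap_eq fun c => (res_str (p ≫ s) (X.basicOpen_le h') c).symm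
  let γ : Γ(X, U) →ₐ[k] Γ(X, X.basicOpen h') :=
    { ((it G N).appLE U _ hh'1).hom with
      commutes' := appLE_str (it G N) (p ≫ s) (p ≫ s) (by rw [reassoc_of% (it_comp G p hG N)])
        hh'1 }
  have hb0D : b0A ∈ D := fun j => by simpa [ht0] using hρ0.le
  obtain ⟨m, hm⟩ := tail hD k v hv hnt ρ hρ0 Γ(B, B') t b0A ht0 Γ(X, U) θ hθ π (van Y U) h'
    Γ(X, X.basicOpen h') γ D (fun b => Iff.rfl) o z
    (fun b hb n l => by
      rw [ho b hb]; exact (((g^[N])^[n] ⟨b.comp χ, hχD b hb⟩).2 l).trans hρ1.le)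
    (fun b hb n a => by
      have e : Pt (o b n) ≫ p = Pb b := by
        rw [hoP b hb, Category.assoc, Category.assoc, it_comp G p hG, hx, Category.comp_id]
      rw [← hPtev, ← hPbev, ← ev_congr e B' (e ▸ hPbU b)]
      exact ev_appLE _ p hUB (hPtU _) _ a)
    (fun b hb n a ha => by
      rw [← hPtev]
      refine (mem_closed_iff hYc hU _ (hPtU _)).1 ?_ a ha
      rw [hoP b hb, pt_comp, Scheme.Hom.comp_apply]
      exact hY1 _ _)
    (fun b hb n u hu a => by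
      have h2 := pt_ofHom_mem hV u.toRingHom
      have e : ofHom hV u.toRingHom = Pt (o b n) := by
        refine ext_ev hU (X.basicOpen_le h' h2) (hPtU _) ?_
        ext a'
        rw [hPtev, ← hu, ← ev_res _ (X.basicOpen_le h') h2, ev_ofHom]
        rfl
      have e2 : Pt (o b (n + 1)) = ofHom hV u.toRingHom ≫ it G N := by
        rw [e, hoP b hb, hoP b hb, Nat.mul_succ, it_add]
        simp only [Category.assoc]
      rw [← hPtev, ev_congr e2 U _ (e2 ▸ hPtU _), ← ev_appLE _ _ hh'1 h2, ev_ofHom]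
      rfl)
    (fun b hb => (hz b hb).imp fun m h => h.2.2)
    (fun ε hε => by
      obtain ⟨m0, hm0⟩ := hconv ε hε
      refine ⟨m0, fun b hb n hn l => ?_⟩
      obtain ⟨m, h1, h2, -⟩ := hz b hb
      rw [h2, ho b hb, ho b hb]
      exact hm0 _ _ m h1 rfl n hn l)
    (fun b hb b' hb' r hr hd l => by
      obtain ⟨m, -, -, h2⟩ := hz b hb
      obtain ⟨m', -, -, h2'⟩ := hz b' hb'
      rw [← h2 _ (le_max_left m m'), ← h2' _ (le_max_right m m'), ho b hb, ho b' hb',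
        ← Function.iterate_mul]
      refine hLipit _ _ _ r (fun l' => ?_) l
      change v (b.comp χ (θ l') - b'.comp χ (θ l')) ≤ r
      rw [hχev, hχev]
      exact Pool.Agent.H177Z.NPDyn.poly_lip hv _ (hχC l') _ _ (fun j => (hb j).trans hρ1.le)
        (fun j => (hb' j).trans hρ1.le) r hr hd)
    (by
      obtain ⟨m, -, h2, -⟩ := hz b0A hb0D
      have e0 : Pb b0A = b0 := ofHom_ev hB' b0 hb0B
      have e : Pt (o b0A m) = b0 ≫ x := by
        rw [hoP b0A hb0D, e0, ← Category.assoc, hfixit]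
      rw [h2, ← hPtev, ev_congr e U _ hy0U]
      exact (mem_basicOpen_iff _ U hy0U h').1 hh'2)
    (fun Q Q' hQ _ hle h1 h2 h3 => by
      subst hUdef
      exact isolation hB p (it G N) (it_comp G p hG N) c hc B' (hgen B' hB') Y hYc (hY2 N) i0
        h' hh'1 Q Q' hQ hle h1 h2 h3)
  refine ⟨N * (m + 1), N * m, by nlinarith, ?_⟩
  have hp' : (x ≫ it G (N * (m + 1))) ≫ p = (x ≫ it G (N * m)) ≫ p := by
    simp only [Category.assoc, it_comp G p hG]
  suffices IsDominant (equalizer.ι (x ≫ it G (N * (m + 1))) (x ≫ it G (N * m))) from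
    ext_of_isDominant_of_isSeparated p hp' (equalizer.ι _ _) (equalizer.condition _ _)
  refine ⟨dense_iff_inter_open.2 fun W hW hWne => ?_⟩
  obtain ⟨b1, hb1W, hb1B⟩ := nonempty_preirreducible_inter hW B'.2 hWne ⟨_, hb0B⟩
  obtain ⟨a, ha1, ha2⟩ := hB'.exists_basicOpen_le (V := ⟨W, hW⟩) ⟨b1, hb1W⟩ hb1B
  have ha : a ≠ 0 := by
    rintro rfl
    simp at ha2
  obtain ⟨b, hb, hba, e⟩ := hm a ha
  refine ⟨pt (Pb b), ha1 ((mem_basicOpen_iff _ B' (hPbU b) a).2 (by rwa [hPbev])),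
    equalizer.lift (Pb b) (by rw [← hoP b hb, ← hoP b hb, e]) (IsLocalRing.closedPoint k), ?_⟩
  rw [← Scheme.Hom.comp_apply, equalizer.lift_ι]

end Pool.Agent.H505Z.NP
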