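import Mathlib

/-! Evaluation of sections at field-valued points of a scheme. -/

set_option autoImplicit false

open AlgebraicGeometry CategoryTheory CategoryTheory.Limits TopologicalSpace Opposite

namespace Pool.Agent.H505Z.NP

variable {X X' : Scheme.{0}} {E E' : Type} [Field E] [Field E']

/-- The point of `X` under a field-valued point. -/
noncomputable abbrev pt (y : Spec (CommRingCat.of E) ⟶ X) : X := y (IsLocalRing.closedPoint E)

lemma top_le_pre (y : Spec (CommRingCat.of E) ⟶ X) {U : X.Opens} (h : pt y ∈ U) :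
    (⊤ : (Spec (CommRingCat.of E)).Opens) ≤ y ⁻¹ᵁ U := by
  intro z _
  have : z = IsLocalRing.closedPoint E := Subsingleton.elim _ _
  subst this
  exact h

/-- Value of a section at a field-valued point. -/
noncomputable def ev (y : Spec (CommRingCat.of E) ⟶ X) (U : X.Opens) (h : pt y ∈ U) :
    Γ(X, U) →+* E :=
  (y.appLE U ⊤ (top_le_pre y h) ≫ (Scheme.ΓSpecIso (CommRingCat.of E)).hom).hom

lemma pt_comp (y : Spec (CommRingCat.of E) ⟶ X) (f : X ⟶ X') : pt (y ≫ f) = f (pt y) := by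
  simp [pt]

lemma pt_specMap (φ : E →+* E') (y : Spec (CommRingCat.of E) ⟶ X) :
    pt (Spec.map (CommRingCat.ofHom φ) ≫ y) = pt y := by
  rw [pt_comp]
  congr 1
  exact Subsingleton.elim _ _

lemma ev_congr {y y' : Spec (CommRingCat.of E) ⟶ X} (e : y = y') (U : X.Opens) (h : pt y ∈ U)
    (h' : pt y' ∈ U) : ev y U h = ev y' U h' := by
  subst e; rfl

lemma ev_res (y : Spec (CommRingCat.of E) ⟶ X) {U V : X.Opens} (e : V ≤ U) (h : pt y ∈ V)
    (g : Γ(X, U)) : ev y V h (X.presheaf.map (homOfLE e).op g) = ev y U (e h) g := by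
  unfold ev
  rw [← CommRingCat.comp_apply, Scheme.Hom.map_appLE_assoc]

lemma ev_appLE (y : Spec (CommRingCat.of E) ⟶ X) (f : X ⟶ X') {U : X'.Opens} {V : X.Opens}
    (e : V ≤ f ⁻¹ᵁ U) (h : pt y ∈ V) (h' : pt (y ≫ f) ∈ U) (g : Γ(X', U)) :
    ev y V h (f.appLE U V e g) = ev (y ≫ f) U h' g := by
  unfold ev
  rw [← CommRingCat.comp_apply, Scheme.Hom.appLE_comp_appLE_assoc]

lemma ev_specMap (φ : E →+* E') (y : Spec (CommRingCat.of E) ⟶ X) (U : X.Opens) (h : pt y ∈ U)
    (h' : pt (Spec.map (CommRingCat.ofHom φ) ≫ y) ∈ U) (g : Γ(X, U)) :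
    ev (Spec.map (CommRingCat.ofHom φ) ≫ y) U h' g = φ (ev y U h g) := by
  unfold ev
  rw [← Scheme.Hom.appLE_comp_appLE _ _ U ⊤ ⊤ (top_le_pre y h) le_top]
  have : (Spec.map (CommRingCat.ofHom φ)).appLE ⊤ ⊤ le_top ≫
      (Scheme.ΓSpecIso (CommRingCat.of E')).hom =
      (Scheme.ΓSpecIso (CommRingCat.of E)).hom ≫ CommRingCat.ofHom φ := by
    rw [← Scheme.ΓSpecIso_naturality]
    rfl
  rw [Category.assoc, this]
  rfl

lemma mem_basicOpen_iff (y : Spec (CommRingCat.of E) ⟶ X) (U : X.Opens) (h : pt y ∈ U)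
    (g : Γ(X, U)) : pt y ∈ X.basicOpen g ↔ ev y U h g ≠ 0 := by
  have h1 := Scheme.basicOpen_appLE y ⊤ U (top_le_pre y h) g
  have h2 : pt y ∈ X.basicOpen g ↔ IsLocalRing.closedPoint E ∈
      (Spec (CommRingCat.of E)).basicOpen (y.appLE U ⊤ (top_le_pre y h) g) := by
    rw [h1]; exact ⟨fun h => ⟨trivial, h⟩, fun h => h.2⟩
  rw [h2]
  have h3 : y.appLE U ⊤ (top_le_pre y h) g =
      (Scheme.ΓSpecIso (CommRingCat.of E)).inv (ev y U h g) := by
    unfold ev
    rw [← CommRingCat.comp_apply, Category.assoc, Iso.hom_inv_id, Category.comp_id]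
  rw [h3, basicOpen_eq_of_affine]
  change ev y U h g ∉ (IsLocalRing.closedPoint E).asIdeal ↔ _
  simp [IsLocalRing.closedPoint, IsLocalRing.maximalIdeal_eq_bot]

/-- The field-valued point given by a ring map from the sections over an affine open. -/
noncomputable def ofHom {U : X.Opens} (hU : IsAffineOpen U) (φ : Γ(X, U) →+* E) :
    Spec (CommRingCat.of E) ⟶ X :=
  Spec.map (CommRingCat.ofHom φ : Γ(X, U) ⟶ CommRingCat.of E) ≫ hU.fromSpec

lemma pt_ofHom_mem {U : X.Opens} (hU : IsAffineOpen U) (φ : Γ(X, U) →+* E) :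
    pt (ofHom hU φ) ∈ U := by
  rw [ofHom, pt_comp]
  have := hU.range_fromSpec
  have h2 : hU.fromSpec (pt (Spec.map (CommRingCat.ofHom φ : Γ(X, U) ⟶ CommRingCat.of E))) ∈
    Set.range hU.fromSpec := ⟨_, rfl⟩
  rw [this] at h2
  exact h2

lemma ev_ofHom {U : X.Opens} (hU : IsAffineOpen U) (φ : Γ(X, U) →+* E)
    (h : pt (ofHom hU φ) ∈ U) : ev (ofHom hU φ) U h = φ := by
  unfold ev ofHom
  rw [← Scheme.Hom.appLE_comp_appLE _ _ U ⊤ ⊤ hU.fromSpec_preimage_self.ge le_top]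
  have h1 : hU.fromSpec.appLE U ⊤ hU.fromSpec_preimage_self.ge =
      (Scheme.ΓSpecIso Γ(X, U)).inv := by
    rw [Scheme.Hom.appLE, hU.fromSpec_app_self, Category.assoc, ← Functor.map_comp]
    exact Category.comp_id _
  have h2 : (Spec.map (CommRingCat.ofHom φ : Γ(X, U) ⟶ CommRingCat.of E)).appLE ⊤ ⊤ le_top ≫
      (Scheme.ΓSpecIso (CommRingCat.of E)).hom =
      (Scheme.ΓSpecIso Γ(X, U)).hom ≫ CommRingCat.ofHom φ := by
    rw [← Scheme.ΓSpecIso_naturality]
    rfl
  rw [h1, Category.assoc, h2, Iso.inv_hom_id_assoc]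
  rfl

lemma ofHom_ev {U : X.Opens} (hU : IsAffineOpen U) (y : Spec (CommRingCat.of E) ⟶ X)
    (h : pt y ∈ U) : ofHom hU (ev y U h) = y := by
  unfold ev ofHom
  rw [CommRingCat.ofHom_hom, Spec.map_comp, Category.assoc,
    IsAffineOpen.SpecMap_appLE_fromSpec y hU (isAffineOpen_top _), IsAffineOpen.fromSpec_top,
    ← Category.assoc]
  convert Category.id_comp y
  rw [Scheme.isoSpec_Spec_inv, ← Spec.map_comp, Iso.inv_hom_id, Spec.map_id]

lemma ext_ev {U : X.Opens} (hU : IsAffineOpen U) {y y' : Spec (CommRingCat.of E) ⟶ X}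
    (h : pt y ∈ U) (h' : pt y' ∈ U) (e : ev y U h = ev y' U h') : y = y' := by
  rw [← ofHom_ev hU y h, e, ofHom_ev]

/-- The sections over `U` vanishing on `Y`. -/
def van (Y : Set X) (U : X.Opens) : Set Γ(X, U) := {g | ∀ x ∈ Y, x ∉ X.basicOpen g}

lemma mem_closed_iff {Y : Set X} (hY : IsClosed Y) {U : X.Opens} (hU : IsAffineOpen U)
    (y : Spec (CommRingCat.of E) ⟶ X) (h : pt y ∈ U) :
    pt y ∈ Y ↔ ∀ g ∈ van Y U, ev y U h g = 0 := by
  constructor
  · intro hy g hg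
    by_contra hne
    exact hg _ hy ((mem_basicOpen_iff y U h g).2 hne)
  · intro H
    by_contra hy
    obtain ⟨g, hg1, hg2⟩ := hU.exists_basicOpen_le (V := ⟨Yᶜ, hY.isOpen_compl⟩) ⟨pt y, hy⟩ h
    exact (mem_basicOpen_iff y U h g).1 hg2 (H g (fun x hx hx' => hg1 hx' hx))

/-- Lifting a field-valued point along a morphism, after a field extension. -/
lemma exists_lift (f : X' ⟶ X) (y : Spec (CommRingCat.of E) ⟶ X) (ξ : X') (hξ : f ξ = pt y) :
    ∃ (F : Type) (_ : Field F) (_ : IsAlgClosed F) (φ : E →+* F)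
      (y' : Spec (CommRingCat.of F) ⟶ X'),
      y' ≫ f = Spec.map (CommRingCat.ofHom φ) ≫ y ∧ pt y' = ξ := by
  obtain ⟨z, hz1, -⟩ := Scheme.Pullback.exists_preimage_pullback (f := f) (g := y) ξ
    (IsLocalRing.closedPoint E) hξ
  let κ := (pullback f y).residueField z
  let F := AlgebraicClosure κ
  let w : Spec (CommRingCat.of F) ⟶ pullback f y :=
    Spec.map (CommRingCat.ofHom (algebraMap κ F) : κ ⟶ CommRingCat.of F) ≫
      (pullback f y).fromSpecResidueField z
  refine ⟨F, inferInstance, inferInstance, (Spec.preimage (w ≫ pullback.snd f y)).hom,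
    w ≫ pullback.fst f y, ?_, ?_⟩
  · rw [CommRingCat.ofHom_hom, Spec.map_preimage]
    clear_value w
    rw [Category.assoc, Category.assoc, pullback.condition]
  · rw [pt_comp, ← hz1]
    congr 1
    unfold w
    rw [pt_comp]
    exact Scheme.fromSpecResidueField_apply _ _

/-- Structure map from the base field to the sections over an open set. -/
noncomputable def str {k : Type} [Field k] (s : X ⟶ Spec (CommRingCat.of k)) (U : X.Opens) :
    k →+* Γ(X, U) :=
  ((Scheme.ΓSpecIso (CommRingCat.of k)).inv ≫ s.appLE ⊤ U le_top).hom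

lemma ev_id_top {k : Type} [Field k] (h) (c : k) :
    ev (𝟙 (Spec (CommRingCat.of k))) ⊤ h ((Scheme.ΓSpecIso (CommRingCat.of k)).inv c) = c := by
  unfold ev
  rw [← CommRingCat.comp_apply]
  have : (𝟙 (Spec (CommRingCat.of k)) : _ ⟶ _).appLE ⊤ ⊤ (top_le_pre _ h) = 𝟙 _ := by
    simp [Scheme.Hom.appLE]
  rw [this, Category.id_comp, Iso.inv_hom_id]
  rfl

lemma ev_str {k : Type} [Field k] (s : X ⟶ Spec (CommRingCat.of k)) (U : X.Opens)
    (y : Spec (CommRingCat.of k) ⟶ X) (hy : y ≫ s = 𝟙 _) (h : pt y ∈ U) (c : k) :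
    ev y U h (str s U c) = c := by
  have := ev_appLE y s (U := ⊤) (V := U) le_top h trivial
    ((Scheme.ΓSpecIso (CommRingCat.of k)).inv c)
  rw [ev_congr hy ⊤ trivial trivial, ev_id_top] at this
  exact this

lemma ofHom_comp_str {k : Type} [Field k] (s : X ⟶ Spec (CommRingCat.of k)) {U : X.Opens}
    (hU : IsAffineOpen U) (φ : Γ(X, U) →+* k) (hφ : ∀ c, φ (str s U c) = c) :
    ofHom hU φ ≫ s = 𝟙 _ := by
  refine ext_ev (U := ⊤) (isAffineOpen_top _) trivial trivial ?_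
  ext g
  obtain ⟨c, rfl⟩ : ∃ c : k, (Scheme.ΓSpecIso (CommRingCat.of k)).inv c = g :=
    ⟨(Scheme.ΓSpecIso (CommRingCat.of k)).hom g, by simp⟩
  rw [ev_id_top, ← ev_appLE (ofHom hU φ) s (U := ⊤) (V := U) le_top (pt_ofHom_mem hU φ),
    ev_ofHom]
  exact hφ c

lemma appLE_str {k : Type} [Field k] (f : X ⟶ X') (s : X ⟶ Spec (CommRingCat.of k))
    (s' : X' ⟶ Spec (CommRingCat.of k)) (hs : f ≫ s' = s) {U : X'.Opens} {V : X.Opens}
    (e : V ≤ f ⁻¹ᵁ U) (c : k) : f.appLE U V e (str s' U c) = str s V c := by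
  subst hs
  unfold str
  rw [← CommRingCat.comp_apply, Category.assoc, Scheme.Hom.appLE_comp_appLE]

lemma res_str {k : Type} [Field k] (s : X ⟶ Spec (CommRingCat.of k)) {U V : X.Opens}
    (e : V ≤ U) (c : k) : X.presheaf.map (homOfLE e).op (str s U c) = str s V c := by
  unfold str
  rw [← CommRingCat.comp_apply, Category.assoc, Scheme.Hom.appLE_map]

/-- Iterates of an endomorphism. -/
noncomputable def it (f : X ⟶ X) (n : ℕ) : X ⟶ X := (fun g : X ⟶ X => g ≫ f)^[n] (𝟙 X)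

lemma it_zero (f : X ⟶ X) : it f 0 = 𝟙 X := rfl

lemma it_succ (f : X ⟶ X) (n : ℕ) : it f (n + 1) = it f n ≫ f := by
  unfold it; rw [Function.iterate_succ_apply']

lemma iterate_eq_it {Z : Scheme.{0}} (f : X ⟶ X) (x : Z ⟶ X) (n : ℕ) :
    (fun g : Z ⟶ X => g ≫ f)^[n] x = x ≫ it f n := by
  induction n with
  | zero => simp [it_zero]
  | succ n ih => rw [Function.iterate_succ_apply', ih, it_succ, Category.assoc]

lemma it_add (f : X ⟶ X) (n m : ℕ) : it f (n + m) = it f n ≫ it f m := by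
  induction m with
  | zero => simp [it_zero]
  | succ m ih => rw [← add_assoc, it_succ, ih, it_succ, Category.assoc]

lemma it_one (f : X ⟶ X) : it f 1 = f := by rw [it_succ, it_zero, Category.id_comp]

lemma it_mul (f : X ⟶ X) (n m : ℕ) : it (it f n) m = it f (n * m) := by
  induction m with
  | zero => simp [it_zero]
  | succ m ih => rw [it_succ, ih, Nat.mul_succ, it_add]

lemma it_comp {B : Scheme.{0}} (f : X ⟶ X) (p : X ⟶ B) (h : f ≫ p = p) (n : ℕ) :
    it f n ≫ p = p := by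
  induction n with
  | zero => simp [it_zero]
  | succ n ih => rw [it_succ, Category.assoc, h, ih]

end Pool.Agent.H505Z.NP
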