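import Pool.Agent.H505Z.NP.Core

/-! Reduction of the theorem to `core`. -/

set_option autoImplicit false

open AlgebraicGeometry CategoryTheory CategoryTheory.Limits TopologicalSpace Opposite

namespace Pool.Agent.H505Z.NP

lemma eventual_image {X B : Scheme.{0}} [NoetherianSpace X] (p : X ⟶ B) [IsProper p]
    (f : X ⟶ X) (hf : f ≫ p = p) :
    ∃ (m1 : ℕ) (Y : Set X), IsClosed Y ∧ (∀ n, m1 ≤ n → ∀ x, it f n x ∈ Y) ∧
      ∀ M, ∀ y ∈ Y, ∃ ξ ∈ Y, it f M ξ = y := by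
  have hcl : ∀ n, IsClosed (Set.range (it f n)) := fun n => by
    have : IsProper (it f n ≫ p) := by rw [it_comp f p hf]; infer_instance
    have : IsProper (it f n) := IsProper.of_comp _ p
    exact (it f n).isClosedMap.isClosed_range
  let Z : ℕ → Closeds X := fun n => ⟨_, hcl n⟩
  obtain ⟨_, ⟨m1, rfl⟩, hmin⟩ := (wellFounded_lt (α := Closeds X)).has_min (Set.range Z)
    ⟨Z 0, 0, rfl⟩
  have hle : ∀ n, Z (n + m1) ≤ Z m1 := by
    rintro n _ ⟨x, rfl⟩
    exact ⟨it f n x, by rw [it_add, Scheme.Hom.comp_apply]⟩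
  refine ⟨m1, Set.range (it f m1), hcl m1, fun n hn x => ?_, fun M y hy => ?_⟩
  · obtain ⟨d, rfl⟩ := Nat.exists_eq_add_of_le' hn
    exact hle d ⟨x, rfl⟩
  · have e : Z (M + m1) = Z m1 := by
      by_contra hne
      exact hmin _ ⟨_, rfl⟩ (lt_of_le_of_ne (hle M) hne)
    have hy' : y ∈ Z (M + m1) := by rw [e]; exact hy
    obtain ⟨ξ, rfl⟩ := hy'
    exact ⟨it f m1 ξ, ⟨ξ, rfl⟩, by rw [add_comm, it_add, Scheme.Hom.comp_apply]⟩

lemma period_shift {X Z : Scheme.{0}} (f : X ⟶ X) (y : Z ⟶ X) (n j : ℕ)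
    (h : y ≫ it f (n + j) = y ≫ it f n) (q a : ℕ) :
    y ≫ it f (n + q + a * j) = y ≫ it f (n + q) := by
  induction a with
  | zero => simp
  | succ a ih =>
    rw [show n + q + (a + 1) * j = (n + j) + (q + a * j) by ring, it_add, reassoc_of% h,
      ← it_add, ← add_assoc, ih]

lemma exists_period {X Z : Scheme.{0}} (f : X ⟶ X) (y : Z ⟶ X) (n m : ℕ) (hne : n ≠ m)
    (h : y ≫ it f n = y ≫ it f m) : ∃ n j, 0 < j ∧ y ≫ it f (n + j) = y ≫ it f n := by
  rcases lt_or_gt_of_ne hne with h1 | h1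
  · obtain ⟨d, rfl⟩ := Nat.exists_eq_add_of_lt h1
    exact ⟨n, d + 1, Nat.succ_pos _, h.symm⟩
  · obtain ⟨d, rfl⟩ := Nat.exists_eq_add_of_lt h1
    exact ⟨m, d + 1, Nat.succ_pos _, h⟩

theorem final (hB : S_B) (hD : S_dense) (hdyn : S_dyn) (k : Type) [Field k] [IsAlgClosed k]
    [CharZero k] [Algebra.IsAlgebraic ℚ k] (B X : Scheme.{0})
    (s : B ⟶ Spec (CommRingCat.of k)) (p : X ⟶ B) (f : X ⟶ X) (x : B ⟶ X)
    [IsIntegral B] [LocallyOfFiniteType s] [QuasiCompact s]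
    (hp : ∃ (n : ℕ) (_ : GradedAlgebra (MvPolynomial.homogeneousSubmodule (Fin (n + 1)) ℤ))
        (a : B ⟶ Spec (CommRingCat.of ℤ))
        (c : Proj (MvPolynomial.homogeneousSubmodule (Fin (n + 1)) ℤ) ⟶ Spec (CommRingCat.of ℤ))
        (i : X ⟶ pullback a c),
        AlgebraicGeometry.IsClosedImmersion i ∧ i ≫ pullback.fst a c = p)
    (hf : f ≫ p = p) (hx : x ≫ p = 𝟙 B)
    (hne : ∀ n m : ℕ, n ≠ m →
        (fun g : B ⟶ X => g ≫ f)^[n] x ≠ (fun g : B ⟶ X => g ≫ f)^[m] x) :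
    ∃ b : Spec (CommRingCat.of k) ⟶ B, b ≫ s = 𝟙 _ ∧ ∀ n m : ℕ, n ≠ m →
      (fun g : Spec (CommRingCat.of k) ⟶ X => g ≫ f)^[n] (b ≫ x) ≠
        (fun g : Spec (CommRingCat.of k) ⟶ X => g ≫ f)^[m] (b ≫ x) := by
  by_contra hcon
  push Not at hcon
  simp only [iterate_eq_it] at hne hcon
  obtain ⟨hprop, ι, _, c, hc, hgen⟩ := proj_data B X p hp
  have : IsLocallyNoetherian X := LocallyOfFiniteType.isLocallyNoetherian (p ≫ s)
  have : CompactSpace X := QuasiCompact.compactSpace_of_compactSpace (p ≫ s)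
  have : IsNoetherian X := {}
  obtain ⟨m1, Y, hYc, hY1, hY2⟩ := eventual_image p f hf
  have : JacobsonSpace B := LocallyOfFiniteType.jacobsonSpace s
  obtain ⟨b1, -, hb1⟩ := nonempty_inter_closedPoints (X := B) Set.univ_nonempty
    isClosed_univ.isLocallyClosed
  let b0 := pointOfClosedPoint s b1 hb1
  have hb0 : b0 ≫ s = 𝟙 _ := pointOfClosedPoint_comp s b1 hb1
  have hper : ∀ b : Spec (CommRingCat.of k) ⟶ B, b ≫ s = 𝟙 _ →
      ∃ n j, 0 < j ∧ (b ≫ x) ≫ it f (n + j) = (b ≫ x) ≫ it f n := fun b hb => by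
    obtain ⟨n, m, h1, h2⟩ := hcon b hb
    exact exists_period f _ n m h1 h2
  obtain ⟨n0, N, hN, h0⟩ := hper b0 hb0
  obtain ⟨n, m, hnm, e⟩ := core hB hD hdyn k s p (it f N) (x ≫ it f (n0 + m1)) c hc hgen
    (it_comp f p hf N) (by rw [Category.assoc, it_comp f p hf, hx]) Y hYc
    (fun n b => by
      rw [it_mul, Scheme.Hom.comp_apply, ← Scheme.Hom.comp_apply (it f (n0 + m1)), ← it_add]
      exact hY1 _ (by omega) _)
    (fun M => by rw [it_mul]; exact hY2 _) b0 hb0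
    (by
      have := period_shift f _ n0 N h0 m1 1
      rw [one_mul, it_add] at this
      simpa only [Category.assoc] using this)
    (fun b hb => by
      obtain ⟨n, j, hj, h1⟩ := hper b hb
      refine ⟨n, j, hj, ?_⟩
      obtain ⟨q, hq⟩ : ∃ q, n0 + m1 + N * n = n + q := ⟨n0 + m1 + N * n - n, by
        have : n ≤ N * n := Nat.le_mul_of_pos_left n hN
        omega⟩
      have := period_shift f _ n j h1 q N
      rw [← hq] at this
      rw [it_mul, it_mul, Category.assoc, Category.assoc, ← it_add, ← it_add, mul_add,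
        ← add_assoc]
      simpa only [Category.assoc] using this)
  rw [it_mul, it_mul, Category.assoc, Category.assoc, ← it_add, ← it_add] at e
  refine hne _ _ (fun h => hnm ?_) e
  exact Nat.eq_of_mul_eq_mul_left hN (by omega)

end Pool.Agent.H505Z.NP
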