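import Pool.Agent.H505Z.NP.SB

/-! Points of the fibres are isolated. -/

set_option autoImplicit false

open AlgebraicGeometry CategoryTheory CategoryTheory.Limits TopologicalSpace Opposite

namespace Pool.Agent.H505Z.NP

lemma prime_eq_of_algebraic {R S E : Type} [CommRing R] [CommRing S] [Field E] (γ : R →+* S)
    (q : S →+* E) (Q Q' : Ideal S) (hQ : ∀ s, q s = 0 ↔ s ∈ Q) (hQp : Q.IsPrime) (hle : Q ≤ Q')
    (hγ : ∀ g, γ g ∈ Q' → γ g ∈ Q)
    (halg : ∀ s, IsAlgebraic (Subfield.closure (Set.range (q.comp γ))) (q s)) : Q = Q' := by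
  by_contra hne
  obtain ⟨s, hs1, hs2⟩ := SetLike.exists_of_lt (lt_of_le_of_ne hle hne)
  let ψ := q.comp γ
  let L := Subfield.closure (Set.range ψ)
  let A0 := ψ.range
  let : Algebra A0 L := (A0.subtype.codRestrict L fun x => Subfield.subset_closure x.2).toAlgebra
  have : IsScalarTower A0 L E := IsScalarTower.of_algebraMap_eq fun _ => rfl
  have hcl : Subring.closure (Set.range ψ) = A0 := Subring.closure_eq A0
  have : Algebra.IsAlgebraic A0 L := ⟨fun x => by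
    obtain ⟨y, hy, z, hz, hx⟩ := Subfield.mem_closure_iff.1 x.2
    rw [hcl] at hy hz
    by_cases h0 : z = 0
    · have : x = 0 := Subtype.ext (by rw [← hx, h0]; simp)
      rw [this]; exact isAlgebraic_zero
    · refine ⟨Polynomial.C ⟨z, hz⟩ * Polynomial.X - Polynomial.C ⟨y, hy⟩, fun h => h0 ?_, ?_⟩
      · have := congr(Polynomial.coeff $h 1)
        simp only [Polynomial.coeff_sub, Polynomial.coeff_C_mul, Polynomial.coeff_X_one, mul_one,
          Polynomial.coeff_C_succ, sub_zero, Polynomial.coeff_zero] at this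
        exact congr(($this).1)
      · ext
        simp only [map_sub, map_mul, Polynomial.aeval_C, Polynomial.aeval_X]
        change z * x.1 - y = 0
        rw [← hx]; field_simp; ring⟩
  obtain ⟨P, hP0, hP⟩ := (halg s).restrictScalars A0
  obtain ⟨P', rfl⟩ := Polynomial.map_surjective ψ.rangeRestrict ψ.rangeRestrict_surjective P
  have h1 : P'.eval₂ γ s ∈ Q := by
    rw [← hQ, Polynomial.hom_eval₂, ← hP, Polynomial.aeval_def, Polynomial.eval₂_map]
    rfl
  have h2 : P'.map (Ideal.Quotient.mk (Q.comap γ)) ≠ 0 := by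
    intro h
    apply hP0
    ext n
    have := congr(Polynomial.coeff $h n)
    rw [Polynomial.coeff_map, Polynomial.coeff_zero, Ideal.Quotient.eq_zero_iff_mem,
      Ideal.mem_comap, ← hQ] at this
    simpa [ψ] using this
  exact (Ideal.comap_lt_comap_of_root_mem_sdiff hle ⟨hs1, hs2⟩ h2 h1).not_ge fun g hg => hγ g hg

theorem isolation (hB : S_B) {X B : Scheme.{0}} (p : X ⟶ B) (G : X ⟶ X) (hG : G ≫ p = p)
    {ι : Type} [Fintype ι] (c : Coord X ι) (hc : c.Good) (B' : B.Opens) [IsDomain Γ(B, B')]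
    [CharZero Γ(B, B')]
    (hgen : ∀ i, IsAffineOpen (p ⁻¹ᵁ B' ⊓ c.O i) ∧
        ∀ g : Γ(X, p ⁻¹ᵁ B' ⊓ c.O i), ∃ P : MvPolynomial ι Γ(B, B'),
          g = MvPolynomial.eval₂ (p.appLE B' _ inf_le_left).hom
            (fun l => X.presheaf.map (homOfLE inf_le_right).op (c.r l i)) P)
    (Y : Set X) (hYc : IsClosed Y) (hY : ∀ y ∈ Y, ∃ ξ ∈ Y, G ξ = y) (i0 : ι)
    (h' : Γ(X, p ⁻¹ᵁ B' ⊓ c.O i0)) (hh' : X.basicOpen h' ≤ G ⁻¹ᵁ (p ⁻¹ᵁ B' ⊓ c.O i0))
    (Q Q' : Ideal Γ(X, X.basicOpen h')) (hQ : Q.IsPrime) (hle : Q ≤ Q')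
    (h1 : ∀ g ∈ van Y (p ⁻¹ᵁ B' ⊓ c.O i0),
      algebraMap Γ(X, p ⁻¹ᵁ B' ⊓ c.O i0) Γ(X, X.basicOpen h') g ∈ Q)
    (h2 : ∀ g, G.appLE _ _ hh' g ∈ Q' → G.appLE _ _ hh' g ∈ Q)
    (h3 : ∀ a, algebraMap Γ(X, p ⁻¹ᵁ B' ⊓ c.O i0) Γ(X, X.basicOpen h')
      (p.appLE B' _ inf_le_left a) ∈ Q' → a = 0) : Q = Q' := by
  have hU := (hgen i0).1
  have hV := hU.basicOpen h'
  have := hU.isLocalization_basicOpen h'
  let E := FractionRing (Γ(X, X.basicOpen h') ⧸ Q)
  let q : Γ(X, X.basicOpen h') →+* E := (algebraMap _ E).comp (Ideal.Quotient.mk Q)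
  have hq : ∀ s, q s = 0 ↔ s ∈ Q := fun s => by
    simp only [q, RingHom.comp_apply]
    rw [map_eq_zero_iff _ (IsFractionRing.injective _ E), Ideal.Quotient.eq_zero_iff_mem]
  let y := ofHom hV q
  have hyV : pt y ∈ X.basicOpen h' := pt_ofHom_mem hV q
  have hyU : pt y ∈ p ⁻¹ᵁ B' ⊓ c.O i0 := X.basicOpen_le h' hyV
  have hevV : ev y _ hyV = q := ev_ofHom hV q hyV
  have hevU : ∀ g, ev y _ hyU g =
      q (algebraMap Γ(X, p ⁻¹ᵁ B' ⊓ c.O i0) Γ(X, X.basicOpen h') g) := fun g => by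
    rw [← hevV]; exact (ev_res y (X.basicOpen_le h') hyV g).symm
  have hyY : pt y ∈ Y := (mem_closed_iff hYc hU y hyU).2 fun g hg => by
    rw [hevU, hq]; exact h1 g hg
  have hb : pt (y ≫ p) ∈ B' := by rw [pt_comp]; exact hyU.1
  have hevb : ∀ a, ev (y ≫ p) B' hb a = ev y _ hyU (p.appLE B' _ inf_le_left a) := fun a =>
    (ev_appLE y p inf_le_left hyU hb a).symm
  have hinj : Function.Injective (ev (y ≫ p) B' hb) := by
    rw [injective_iff_map_eq_zero]
    intro a ha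
    rw [hevb, hevU, hq] at ha
    exact h3 a (hle ha)
  let ψ := q.comp (G.appLE _ _ hh').hom
  let L := Subfield.closure (Set.range ψ)
  have hyG : pt (y ≫ G) ∈ p ⁻¹ᵁ B' ⊓ c.O i0 := by rw [pt_comp]; exact hh' hyV
  have hevG : ∀ g, ev (y ≫ G) _ hyG g = ψ g := fun g => by
    rw [← ev_appLE y G hh' hyV hyG g, hevV]; rfl
  have hL : ∀ a, ev (y ≫ p) B' hb a ∈ L := fun a => by
    refine Subfield.subset_closure ⟨p.appLE B' _ inf_le_left a, ?_⟩
    have e : (y ≫ G) ≫ p = y ≫ p := by rw [Category.assoc, hG]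
    rw [← hevG, ev_appLE (y ≫ G) p inf_le_left hyG (e ▸ hb), ev_congr e B' _ hb]
  let ψ' := ψ.codRestrict L fun g => Subfield.subset_closure ⟨g, rfl⟩
  have hy'' : y ≫ G = Spec.map (CommRingCat.ofHom L.subtype) ≫ ofHom hU ψ' := by
    have h4 := pt_ofHom_mem hU ψ'
    refine ext_ev hU hyG (by rw [pt_specMap]; exact h4) ?_
    ext g
    rw [hevG, ev_specMap L.subtype _ _ h4, ev_ofHom]
    rfl
  have halg := scheme_B hB p G hG c hc B' hgen Y hY E y hyY hb hinj L hL _ hy'' i0 hyU.2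
  have hR : ∀ g, ev y _ hyU g ∈ algebraicClosure L E := by
    intro g
    obtain ⟨P, rfl⟩ := (hgen i0).2 g
    induction P using MvPolynomial.induction_on with
    | C a =>
      rw [MvPolynomial.eval₂_C, ← hevb]
      exact (algebraicClosure L E).algebraMap_mem ⟨_, hL a⟩
    | add P P' hP hP' => rw [MvPolynomial.eval₂_add, map_add]; exact add_mem hP hP'
    | mul_X P l hP =>
      rw [MvPolynomial.eval₂_mul, MvPolynomial.eval₂_X, map_mul]
      refine mul_mem hP ?_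
      rw [ev_res y inf_le_right hyU]
      exact mem_algebraicClosure_iff.2 (halg l)
  refine prime_eq_of_algebraic (G.appLE _ _ hh').hom q Q Q' hq hQ hle h2 fun s => ?_
  obtain ⟨⟨a, b⟩, hab⟩ := IsLocalization.surj (Submonoid.powers h') s
  have hu : q (algebraMap _ Γ(X, X.basicOpen h') b.1) ≠ 0 :=
    ((IsLocalization.map_units Γ(X, X.basicOpen h') b).map q).ne_zero
  have e : q s = ev y _ hyU a / ev y _ hyU b.1 := by
    rw [hevU, hevU, eq_div_iff hu, ← map_mul, hab]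
  rw [e]
  exact mem_algebraicClosure_iff.1 (div_mem (hR a) (hR b.1))

end Pool.Agent.H505Z.NP
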