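import Pool.Agent.H505Z.NP.Ev

/-! Homogeneous coordinates of field-valued points of a closed subscheme of `ℙⁿ_B`. -/

set_option autoImplicit false
set_option linter.unusedSectionVars false
set_option linter.unusedSimpArgs false

open AlgebraicGeometry CategoryTheory CategoryTheory.Limits TopologicalSpace Opposite
open HomogeneousLocalization

namespace Pool.Agent.H505Z.NP

/-- Chart data: opens `O i` (`x_i ≠ 0`) and sections `r l i = x_l / x_i`. -/
structure Coord (X : Scheme.{0}) (ι : Type) where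
  O : ι → X.Opens
  r : ∀ (_ i : ι), Γ(X, O i)

variable {X X' : Scheme.{0}} {ι : Type} {E E' : Type} [Field E] [Field E']

/-- `τ` is a system of homogeneous coordinates of `y`. -/
def Coord.Is (c : Coord X ι) (y : Spec (CommRingCat.of E) ⟶ X) (τ : ι → E) : Prop :=
  (∃ i, τ i ≠ 0) ∧ (∀ i, pt y ∈ c.O i ↔ τ i ≠ 0) ∧
    ∀ i (h : pt y ∈ c.O i) l, ev y (c.O i) h (c.r l i) = τ l / τ i

def Coord.Good (c : Coord X ι) : Prop :=
  (∀ x : X, ∃ i, x ∈ c.O i) ∧
    ∀ (E : Type) [Field E] (y : Spec (CommRingCat.of E) ⟶ X), ∃ τ, c.Is y τ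

lemma Coord.Is.div {c : Coord X ι} {y : Spec (CommRingCat.of E) ⟶ X} {τ : ι → E}
    (h : c.Is y τ) {a : E} (ha : a ≠ 0) : c.Is y (fun l => τ l / a) := by
  obtain ⟨⟨i, hi⟩, h2, h3⟩ := h
  refine ⟨⟨i, div_ne_zero hi ha⟩, fun j => ?_, fun j hj l => ?_⟩
  · rw [h2]; simp [ha]
  · rw [h3, div_div_div_cancel_right₀ ha]

lemma Coord.Is.map {c : Coord X ι} {y : Spec (CommRingCat.of E) ⟶ X} {τ : ι → E}
    (h : c.Is y τ) (φ : E →+* E') :
    c.Is (Spec.map (CommRingCat.ofHom φ) ≫ y) (fun l => φ (τ l)) := by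
  obtain ⟨⟨i, hi⟩, h2, h3⟩ := h
  refine ⟨⟨i, by simpa using hi⟩, fun j => ?_, fun j hj l => ?_⟩
  · rw [pt_specMap, h2]; simp
  · have hj' : pt y ∈ c.O j := by rwa [pt_specMap] at hj
    rw [ev_specMap φ y _ hj', h3, map_div₀]

/-- Pull-back of chart data. -/
noncomputable def Coord.comap (c : Coord X ι) (φ : X' ⟶ X) : Coord X' ι where
  O i := φ ⁻¹ᵁ c.O i
  r l i := φ.appLE (c.O i) _ le_rfl (c.r l i)

lemma Coord.Good.comap {c : Coord X ι} (h : c.Good) (φ : X' ⟶ X) : (c.comap φ).Good := by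
  refine ⟨fun x => h.1 (φ x), fun E _ y => ?_⟩
  obtain ⟨τ, h1, h2, h3⟩ := h.2 E (y ≫ φ)
  refine ⟨τ, h1, fun i => ?_, fun i hi l => ?_⟩
  · rw [← h2, pt_comp]; rfl
  · have hi' : pt (y ≫ φ) ∈ c.O i := by rw [pt_comp]; exact hi
    rw [← h3 i hi' l]
    exact ev_appLE y φ le_rfl hi hi' _

section Proj

variable {A σ : Type} [CommRing A] [SetLike σ A] [AddSubgroupClass σ A] (𝒜 : ℕ → σ)
  [GradedRing 𝒜] (v : ι → A) (hv : ∀ i, v i ∈ 𝒜 1)

/-- The standard charts of `Proj`. -/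
noncomputable def projCoord : Coord (Proj 𝒜) ι where
  O i := Proj.basicOpen 𝒜 (v i)
  r l i := Proj.awayToSection 𝒜 (v i) (Away.isLocalizationElem (hv i) (hv l))

lemma specMap_awayι (f : A) (hf : f ∈ 𝒜 1) :
    Spec.map (Proj.awayToSection 𝒜 f) ≫ Proj.awayι 𝒜 f hf one_pos =
      (Proj.isAffineOpen_basicOpen 𝒜 f hf one_pos).fromSpec := by
  rw [← cancel_epi (Proj.isAffineOpen_basicOpen 𝒜 f hf one_pos).isoSpec.hom,
    IsAffineOpen.isoSpec_hom_fromSpec, IsAffineOpen.isoSpec_hom, ← Category.assoc]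
  change Proj.basicOpenToSpec 𝒜 f ≫ _ = _
  rw [← Proj.basicOpenIsoSpec_hom 𝒜 f hf one_pos, Proj.awayι, Iso.hom_inv_id_assoc]

lemma proj_mem_iff (y : Spec (CommRingCat.of E) ⟶ Proj 𝒜) (i l : ι)
    (h : pt y ∈ (projCoord 𝒜 v hv).O i) :
    pt y ∈ (projCoord 𝒜 v hv).O l ↔ ev y _ h ((projCoord 𝒜 v hv).r l i) ≠ 0 := by
  have hU := Proj.isAffineOpen_basicOpen 𝒜 (v i) (hv i) one_pos
  have h1 := ofHom_ev hU y h
  have h2 : pt y = Proj.awayι 𝒜 (v i) (hv i) one_pos
      (pt (Spec.map (CommRingCat.ofHom ((ev y _ h).comp (Proj.awayToSection 𝒜 (v i)).hom) :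
        CommRingCat.of (Away 𝒜 (v i)) ⟶ CommRingCat.of E))) := by
    rw [← pt_comp]
    congr 1
    conv_lhs => rw [← h1]
    rw [ofHom, ← specMap_awayι 𝒜 (v i) (hv i), ← Category.assoc, ← Spec.map_comp]
    rfl
  have h3 := Proj.awayι_preimage_basicOpen 𝒜 (hv i) one_pos (hv l) one_pos
  have h4 : pt y ∈ (projCoord 𝒜 v hv).O l ↔
      (pt (Spec.map (CommRingCat.ofHom ((ev y _ h).comp (Proj.awayToSection 𝒜 (v i)).hom) :
        CommRingCat.of (Away 𝒜 (v i)) ⟶ CommRingCat.of E))) ∈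
        Proj.awayι 𝒜 (v i) (hv i) one_pos ⁻¹ᵁ Proj.basicOpen 𝒜 (v l) := by
    rw [h2]; rfl
  rw [h4, h3]
  change ev y _ h ((projCoord 𝒜 v hv).r l i) ∉ (IsLocalRing.closedPoint E).asIdeal ↔ _
  simp [IsLocalRing.closedPoint, IsLocalRing.maximalIdeal_eq_bot]

lemma proj_cocycle (y : Spec (CommRingCat.of E) ⟶ Proj 𝒜) (i j l : ι)
    (hi : pt y ∈ (projCoord 𝒜 v hv).O i) (hj : pt y ∈ (projCoord 𝒜 v hv).O j) :
    ev y _ hi ((projCoord 𝒜 v hv).r l i) =
      ev y _ hj ((projCoord 𝒜 v hv).r l j) * ev y _ hi ((projCoord 𝒜 v hv).r j i) := by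
  have hij : pt y ∈ Proj.basicOpen 𝒜 (v i * v j) := by
    rw [Proj.basicOpen_mul]; exact ⟨hi, hj⟩
  have e1 : ∀ a, ev y _ hi (Proj.awayToSection 𝒜 (v i) a) =
      ev y _ hij (Proj.awayToSection 𝒜 (v i * v j) (awayMap 𝒜 (hv j) rfl a)) := by
    intro a
    have := congr($(Proj.awayMap_awayToSection 𝒜 (f := v i) (hv j) (x := v i * v j) rfl) a)
    simp only [CommRingCat.comp_apply] at this
    erw [this, ev_res]
    rfl
  have e2 : ∀ a, ev y _ hj (Proj.awayToSection 𝒜 (v j) a) =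
      ev y _ hij (Proj.awayToSection 𝒜 (v i * v j) (awayMap 𝒜 (hv i) (mul_comm _ _) a)) := by
    intro a
    have := congr($(Proj.awayMap_awayToSection 𝒜 (f := v j) (hv i) (x := v i * v j)
      (mul_comm _ _)) a)
    simp only [CommRingCat.comp_apply] at this
    erw [this, ev_res]
    rfl
  change ev y _ hi (Proj.awayToSection 𝒜 (v i) _) = ev y _ hj (Proj.awayToSection 𝒜 (v j) _) *
    ev y _ hi (Proj.awayToSection 𝒜 (v i) _)
  rw [e1, e1, e2, ← map_mul, ← map_mul]
  congr 2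
  ext
  simp only [Away.isLocalizationElem, awayMap_mk, val_mul, Away.val_mk, Localization.mk_mul]
  refine Localization.mk_eq_mk_iff.mpr ?_
  rw [Localization.r_iff_exists]
  use 1
  simp
  ring

lemma proj_self (i : ι) : (projCoord 𝒜 v hv).r i i = 1 := by
  change Proj.awayToSection 𝒜 (v i) _ = 1
  rw [← map_one (Proj.awayToSection 𝒜 (v i)).hom]
  congr 1
  ext
  simp only [Away.isLocalizationElem, Away.val_mk, val_one]
  rw [← Localization.mk_one]
  refine Localization.mk_eq_mk_iff.mpr ?_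
  rw [Localization.r_iff_exists]
  use 1
  simp

lemma projCoord_good (hgen : Algebra.adjoin (𝒜 0) (Set.range v) = ⊤) :
    (projCoord 𝒜 v hv).Good := by
  have hc : ∀ x : Proj 𝒜, ∃ i, x ∈ (projCoord 𝒜 v hv).O i := by
    intro x
    have := Proj.iSup_basicOpen_eq_top' 𝒜 v (fun i => ⟨1, hv i⟩) hgen
    exact Opens.mem_iSup.mp (this.ge (Set.mem_univ x))
  refine ⟨hc, fun E _ y => ?_⟩
  obtain ⟨i0, h0⟩ := hc (pt y)
  refine ⟨fun l => ev y _ h0 ((projCoord 𝒜 v hv).r l i0), ⟨i0, ?_⟩,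
    fun i => proj_mem_iff 𝒜 v hv y i0 i h0, fun i hi l => ?_⟩
  · simp [proj_self]
  · have := (proj_mem_iff 𝒜 v hv y i0 i h0).1 hi
    rw [eq_div_iff this]
    exact (proj_cocycle 𝒜 v hv y i0 i l h0 hi).symm

end Proj

section MvP

variable (ι) [Fintype ι] [GradedAlgebra (MvPolynomial.homogeneousSubmodule ι ℤ)]

lemma X_mem (i : ι) : (MvPolynomial.X i : MvPolynomial ι ℤ) ∈
    MvPolynomial.homogeneousSubmodule ι ℤ 1 := MvPolynomial.isHomogeneous_X _ _

lemma zero_int (a : MvPolynomial.homogeneousSubmodule ι ℤ 0) : ∃ n : ℤ, a = n := by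
  obtain ⟨a, ha⟩ := a
  have ha' := ha
  rw [MvPolynomial.homogeneousSubmodule_zero, Submodule.mem_one] at ha'
  obtain ⟨n, rfl⟩ := ha'
  refine ⟨n, Subtype.ext ?_⟩
  change _ = algebraMap (MvPolynomial.homogeneousSubmodule ι ℤ 0) (MvPolynomial ι ℤ) n
  simp

lemma adjoin_X_top : Algebra.adjoin (MvPolynomial.homogeneousSubmodule ι ℤ 0)
    (Set.range (MvPolynomial.X : ι → MvPolynomial ι ℤ)) = ⊤ := by
  rw [eq_top_iff]
  intro P _
  induction P using MvPolynomial.induction_on with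
  | C a => simpa using intCast_mem _ a
  | add p q hp hq => exact add_mem (hp trivial) (hq trivial)
  | mul_X p i hp => exact mul_mem (hp trivial) (Algebra.subset_adjoin ⟨i, rfl⟩)

lemma away_closure (i : ι) (a : Away (MvPolynomial.homogeneousSubmodule ι ℤ) (MvPolynomial.X i)) :
    a ∈ Subring.closure (Set.range fun l =>
      Away.isLocalizationElem (X_mem ι i) (X_mem ι l)) := by
  classical
  have h := Away.span_mk_prod_pow_eq_top (𝒜 := MvPolynomial.homogeneousSubmodule ι ℤ)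
    (X_mem ι i) MvPolynomial.X (adjoin_X_top ι) (fun _ => 1) (X_mem ι)
  have ha := h.ge (Submodule.mem_top (x := a))
  induction ha using Submodule.span_induction with
  | mem x hx =>
    obtain ⟨n, ai, hai, rfl⟩ := hx
    have : Away.mk (MvPolynomial.homogeneousSubmodule ι ℤ) (X_mem ι i) n
        (∏ l, MvPolynomial.X l ^ ai l)
        (hai ▸ SetLike.prod_pow_mem_graded _ _ _ _ fun l _ ↦ X_mem ι l) =
        ∏ l, Away.isLocalizationElem (X_mem ι i) (X_mem ι l) ^ ai l := by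
      apply (show Function.Injective (algebraMap
        (Away (MvPolynomial.homogeneousSubmodule ι ℤ) (MvPolynomial.X i))
        (Localization.Away (MvPolynomial.X i : MvPolynomial ι ℤ))) from val_injective _)
      simp only [map_pow, map_prod]
      simp only [HomogeneousLocalization.algebraMap_apply, Away.val_mk,
        Localization.mk_pow, Localization.mk_prod]
      congr 1
      · simp
      · ext1
        simp only [SubmonoidClass.coe_finsetProd, SubmonoidClass.coe_pow, pow_one,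
          Finset.prod_pow_eq_pow_sum]
        congr 1
        simpa using hai.symm
    rw [this]
    exact prod_mem fun l _ => pow_mem (Subring.subset_closure (Set.mem_range_self l)) _
  | zero => exact zero_mem _
  | add x y _ _ hx hy => exact add_mem hx hy
  | smul r x _ hx =>
    obtain ⟨n, rfl⟩ := zero_int ι r
    rw [Algebra.smul_def, map_intCast]
    exact mul_mem (intCast_mem _ n) hx

lemma isProper_c (c : Proj (MvPolynomial.homogeneousSubmodule ι ℤ) ⟶ Spec (CommRingCat.of ℤ)) :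
    IsProper c := by
  have hft : Algebra.FiniteType (MvPolynomial.homogeneousSubmodule ι ℤ 0) (MvPolynomial ι ℤ) := by
    classical
    refine ⟨⟨Finset.univ.image MvPolynomial.X, ?_⟩⟩
    simpa using adjoin_X_top ι
  let ψ : ℤ →+* (MvPolynomial.homogeneousSubmodule ι ℤ 0) := Int.castRingHom _
  have hψ : Function.Surjective ψ := fun a => by
    obtain ⟨n, rfl⟩ := zero_int ι a
    exact ⟨n, rfl⟩
  have h1 : IsClosedImmersion (Spec.map (CommRingCat.ofHom ψ)) :=
    IsClosedImmersion.spec_of_surjective _ hψ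
  have h2 : c = Proj.toSpecZero _ ≫ Spec.map (CommRingCat.ofHom ψ) :=
    specZIsTerminal.hom_ext _ _
  rw [h2]
  infer_instance

end MvP

lemma pushout_closure {R S T P : CommRingCat.{0}} {f : R ⟶ S} {g : R ⟶ T} {i : S ⟶ P}
    {j : T ⟶ P} (h : IsPushout f g i j) (x : P) :
    x ∈ Subring.closure (Set.range i ∪ Set.range j) := by
  let Q := Subring.closure (Set.range i ∪ Set.range j)
  let i' : S ⟶ CommRingCat.of Q := CommRingCat.ofHom
    (i.hom.codRestrict Q fun s => Subring.subset_closure (Or.inl ⟨s, rfl⟩))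
  let j' : T ⟶ CommRingCat.of Q := CommRingCat.ofHom
    (j.hom.codRestrict Q fun s => Subring.subset_closure (Or.inr ⟨s, rfl⟩))
  have w : f ≫ i' = g ≫ j' := by
    ext r
    exact congr($(h.w) r)
  have : h.desc i' j' w ≫ CommRingCat.ofHom Q.subtype = 𝟙 P := by
    refine h.hom_ext ?_ ?_
    · rw [h.inl_desc_assoc]; rfl
    · rw [h.inr_desc_assoc]; rfl
  have hx : x = (h.desc i' j' w x).1 := (congr($this x)).symm
  rw [hx]
  exact (h.desc i' j' w x).2

/-- The data extracted from projectivity of `p`. -/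
theorem proj_data (B X : Scheme.{0}) (p : X ⟶ B)
    (h : ∃ (n : ℕ) (_ : GradedAlgebra (MvPolynomial.homogeneousSubmodule (Fin (n + 1)) ℤ))
        (a : B ⟶ Spec (CommRingCat.of ℤ))
        (c : Proj (MvPolynomial.homogeneousSubmodule (Fin (n + 1)) ℤ) ⟶ Spec (CommRingCat.of ℤ))
        (i : X ⟶ pullback a c),
        AlgebraicGeometry.IsClosedImmersion i ∧ i ≫ pullback.fst a c = p) :
    IsProper p ∧ ∃ (ι : Type) (_ : Fintype ι) (c : Coord X ι), c.Good ∧
      ∀ (B' : B.Opens), IsAffineOpen B' → ∀ i, IsAffineOpen (p ⁻¹ᵁ B' ⊓ c.O i) ∧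
        ∀ g : Γ(X, p ⁻¹ᵁ B' ⊓ c.O i), ∃ P : MvPolynomial ι Γ(B, B'),
          g = MvPolynomial.eval₂ (p.appLE B' _ inf_le_left).hom
            (fun l => X.presheaf.map (homOfLE inf_le_right).op (c.r l i)) P := by
  obtain ⟨n, inst, a, c, i, hi, rfl⟩ := h
  have hc := isProper_c (Fin (n + 1)) c
  refine ⟨inferInstance, Fin (n + 1), inferInstance,
    (projCoord _ MvPolynomial.X (X_mem (Fin (n + 1)))).comap (i ≫ pullback.snd a c),
    (projCoord_good _ _ _ (adjoin_X_top _)).comap _, fun B' hB' j => ?_⟩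
  let 𝒜 := MvPolynomial.homogeneousSubmodule (Fin (n + 1)) ℤ
  let D : (Proj 𝒜).Opens := Proj.basicOpen 𝒜 (MvPolynomial.X j)
  have hD : IsAffineOpen D := Proj.isAffineOpen_basicOpen 𝒜 _ (X_mem _ j) one_pos
  let W : (pullback a c).Opens := pullback.fst a c ⁻¹ᵁ B' ⊓ pullback.snd a c ⁻¹ᵁ D
  have H := IsPullback.of_hasPullback a c
  have hW : IsAffineOpen W := by
    have : IsAffine _ := hB'
    have : IsAffine _ := hD
    have : IsAffine _ := isAffineOpen_top (Spec (CommRingCat.of ℤ))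
    exact .of_isIso (Scheme.Hom.isPullback_resLE H (US := ⊤) (UT := D) (UX := B') le_top le_top
      (UY := W) rfl).isoPullback.hom
  have hP := (isIso_pushoutSection_iff H (US := ⊤) (UT := D) (UX := B') le_top le_top
    (UY := W) rfl).1 (isIso_pushoutSection_of_isAffineOpen H le_top le_top rfl
      (isAffineOpen_top _) hD hB')
  refine ⟨hW.preimage i, fun g => ?_⟩
  obtain ⟨g', rfl⟩ := i.app_surjective W hW g
  have hg' := pushout_closure hP g'
  let ψ := MvPolynomial.eval₂Hom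
    (((i ≫ pullback.fst a c).appLE B' ((i ≫ pullback.fst a c) ⁻¹ᵁ B' ⊓
      ((projCoord 𝒜 MvPolynomial.X (X_mem (Fin (n + 1)))).comap (i ≫ pullback.snd a c)).O j)
      inf_le_left).hom)
    (fun l => X.presheaf.map (homOfLE inf_le_right).op
      (((projCoord 𝒜 MvPolynomial.X (X_mem (Fin (n + 1)))).comap (i ≫ pullback.snd a c)).r l j))
  suffices hs : i.app W g' ∈ ψ.range by
    obtain ⟨P, hP⟩ := hs
    exact ⟨P, hP.symm⟩
  have key : Subring.closure (Set.range ((pullback.fst a c).appLE B' W inf_le_left) ∪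
      Set.range ((pullback.snd a c).appLE D W inf_le_right)) ≤ ψ.range.comap (i.app W).hom := by
    rw [Subring.closure_le]
    rintro _ (⟨b, rfl⟩ | ⟨d, rfl⟩)
    · refine ⟨MvPolynomial.C b, ?_⟩
      simp only [ψ, MvPolynomial.coe_eval₂Hom, MvPolynomial.eval₂_C]
      rw [Scheme.Hom.app_eq_appLE, ← CommRingCat.comp_apply, Scheme.Hom.appLE_comp_appLE]
      rfl
    · obtain ⟨d, rfl⟩ : ∃ d', Proj.awayToSection 𝒜 (MvPolynomial.X j) d' = d :=
        (Proj.basicOpenIsoAway 𝒜 _ (X_mem _ j) one_pos).commRingCatIsoToRingEquiv.surjective d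
      have hd := away_closure (Fin (n + 1)) j d
      have : Subring.closure (Set.range fun l =>
          Away.isLocalizationElem (X_mem (Fin (n + 1)) j) (X_mem (Fin (n + 1)) l)) ≤
          ψ.range.comap (Proj.awayToSection 𝒜 (MvPolynomial.X j) ≫
            (pullback.snd a c).appLE D W inf_le_right ≫ i.app W).hom := by
        rw [Subring.closure_le]
        rintro _ ⟨l, rfl⟩
        refine ⟨MvPolynomial.X l, ?_⟩
        simp only [ψ, MvPolynomial.coe_eval₂Hom, MvPolynomial.eval₂_X]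
        rw [Scheme.Hom.app_eq_appLE, Scheme.Hom.appLE_comp_appLE]
        have hle : i ⁻¹ᵁ W ≤ (i ≫ pullback.snd a c) ⁻¹ᵁ D := fun _ hx => hx.2
        exact congr($(Scheme.Hom.appLE_map (i ≫ pullback.snd a c) (U := D)
          (V := (i ≫ pullback.snd a c) ⁻¹ᵁ D) (V' := i ⁻¹ᵁ W) le_rfl (homOfLE hle).op)
          (Proj.awayToSection 𝒜 (MvPolynomial.X j)
            (Away.isLocalizationElem (X_mem (Fin (n + 1)) j) (X_mem (Fin (n + 1)) l))))
      exact this hd
  exact key hg'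

end Pool.Agent.H505Z.NP
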