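import Pool.Agent.H505Z.NP.ProjC
import Pool.Agent.H505Z.NP.Defs

/-! Quasi-finiteness of an endomorphism on a subset on which it is surjective. -/

set_option autoImplicit false

open AlgebraicGeometry CategoryTheory CategoryTheory.Limits TopologicalSpace Opposite

namespace Pool.Agent.H505Z.NP

lemma exists_e_local {X : Scheme.{0}} {ι : Type} [Fintype ι] (c : Coord X ι)
    (hc : ∀ x, ∃ i, x ∈ c.O i) (H : X ⟶ X) {U : X.Opens} (hU : IsAffineOpen U) (x : U) :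
    ∃ (l : ι) (b : Γ(X, U)) (a : ι → Γ(X, U)), x.1 ∈ X.basicOpen b ∧
      ∀ (E : Type) [Field E] (y : Spec (CommRingCat.of E) ⟶ X) (h : pt y ∈ U) (ϑ : ι → E),
        c.Is (y ≫ H) ϑ → (ev y U h b ≠ 0 → ϑ l ≠ 0) ∧
          ∀ l', ev y U h (a l') = ev y U h b * (ϑ l' / ϑ l) := by
  obtain ⟨l, hl⟩ := hc (H x.1)
  obtain ⟨g, hg1, hg2⟩ := hU.exists_basicOpen_le (V := H ⁻¹ᵁ c.O l) ⟨x.1, hl⟩ x.2
  have := hU.isLocalization_basicOpen g
  obtain ⟨⟨_, N, rfl⟩, hb⟩ := IsLocalization.exist_integer_multiples_of_finite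
    (S := Γ(X, X.basicOpen g)) (Submonoid.powers g)
    (fun l' => H.appLE (c.O l) (X.basicOpen g) hg1 (c.r l' l))
  choose a ha using hb
  refine ⟨l, g * g ^ N, fun l' => g * a l', ?_, fun E _ y h ϑ hϑ => ?_⟩
  · rw [← pow_succ', Scheme.basicOpen_pow _ _ (Nat.succ_pos _)]
    exact hg2
  · by_cases h0 : ev y U h g = 0
    · simp [h0]
    · have h1 : pt y ∈ X.basicOpen g := (mem_basicOpen_iff y U h g).2 h0
      have h2 : pt (y ≫ H) ∈ c.O l := by rw [pt_comp]; exact hg1 h1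
      refine ⟨fun _ => (hϑ.2.1 l).1 h2, fun l' => ?_⟩
      have e1 : ∀ s, ev y _ h1 (algebraMap Γ(X, U) Γ(X, X.basicOpen g) s) = ev y U h s :=
        fun s => ev_res y (X.basicOpen_le g) h1 s
      have e2 := congr(ev y _ h1 $(ha l'))
      rw [Algebra.smul_def, map_mul, e1, e1, ev_appLE y H hg1 h1 h2, hϑ.2.2 l h2 l'] at e2
      rw [map_mul, map_mul, e2, mul_assoc]

lemma exists_e {X : Scheme.{0}} {ι : Type} [Fintype ι] (c : Coord X ι)
    (hc : ∀ x, ∃ i, x ∈ c.O i) (H : X ⟶ X) {U : X.Opens} (hU : IsAffineOpen U) :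
    ∃ e : ι → ι → Γ(X, U), ∀ (E : Type) [Field E] (y : Spec (CommRingCat.of E) ⟶ X)
      (h : pt y ∈ U) (ϑ : ι → E), c.Is (y ≫ H) ϑ →
      ∃ lam : ι → E, ∑ l, lam l * ϑ l = 1 ∧ ∀ l l', ev y U h (e l l') = lam l * ϑ l' := by
  classical
  choose lx b a hb hab using exists_e_local c hc H hU
  have hspan : Ideal.span (Set.range b) = ⊤ := by
    rw [← hU.iSup_basicOpen_eq_self_iff]
    refine le_antisymm (iSup_le fun f => X.basicOpen_le _) fun x hx => ?_
    exact Opens.mem_iSup.mpr ⟨⟨b ⟨x, hx⟩, ⟨_, rfl⟩⟩, hb ⟨x, hx⟩⟩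
  obtain ⟨u, hu⟩ := Finsupp.mem_span_range_iff_exists_finsupp.1
    ((Ideal.eq_top_iff_one _).1 hspan)
  refine ⟨fun l l' => ∑ x ∈ u.support, if lx x = l then u x * a x l' else 0,
    fun E _ y h ϑ hϑ => ⟨fun l => ∑ x ∈ u.support,
      if lx x = l then ev y U h (u x * b x) / ϑ l else 0, ?_, fun l l' => ?_⟩⟩
  · simp only [Finset.sum_mul]
    rw [Finset.sum_comm]
    have := congr(ev y U h $hu)
    rw [map_one, Finsupp.sum, map_sum] at this
    rw [← this]
    refine Finset.sum_congr rfl fun x _ => ?_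
    rw [Finset.sum_eq_single (lx x)]
    · rw [if_pos rfl, smul_eq_mul]
      by_cases h0 : ev y U h (b x) = 0
      · simp [h0]
      · rw [div_mul_cancel₀ _ ((hab x E y h ϑ hϑ).1 h0)]
    · intro l _ hl
      rw [if_neg (Ne.symm hl), zero_mul]
    · simp
  · rw [map_sum, Finset.sum_mul]
    refine Finset.sum_congr rfl fun x _ => ?_
    split_ifs with hx
    · subst hx
      rw [map_mul, map_mul, (hab x E y h ϑ hϑ).2 l']
      ring
    · simp

theorem scheme_B (hB : S_B) {X B : Scheme.{0}} (p : X ⟶ B) (G : X ⟶ X) (hG : G ≫ p = p)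
    {ι : Type} [Fintype ι] (c : Coord X ι) (hc : c.Good) (B' : B.Opens) [IsDomain Γ(B, B')]
    [CharZero Γ(B, B')]
    (hgen : ∀ i, IsAffineOpen (p ⁻¹ᵁ B' ⊓ c.O i) ∧
        ∀ g : Γ(X, p ⁻¹ᵁ B' ⊓ c.O i), ∃ P : MvPolynomial ι Γ(B, B'),
          g = MvPolynomial.eval₂ (p.appLE B' _ inf_le_left).hom
            (fun l => X.presheaf.map (homOfLE inf_le_right).op (c.r l i)) P)
    (Y : Set X) (hY : ∀ y ∈ Y, ∃ ξ ∈ Y, G ξ = y)
    (E : Type) [Field E] (y : Spec (CommRingCat.of E) ⟶ X) (hy : pt y ∈ Y)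
    (hb : pt (y ≫ p) ∈ B') (hinj : Function.Injective (ev (y ≫ p) B' hb))
    (L : Subfield E) (hL : ∀ a, ev (y ≫ p) B' hb a ∈ L) (y'' : Spec (CommRingCat.of L) ⟶ X)
    (hy'' : y ≫ G = Spec.map (CommRingCat.ofHom L.subtype) ≫ y'')
    (i : ι) (hi : pt y ∈ c.O i) (l : ι) : IsAlgebraic L (ev y _ hi (c.r l i)) := by
  by_contra htr
  have hξ : ∀ j, ∃ ξ ∈ Y, it G j ξ = pt y := by
    intro j
    induction j with
    | zero => exact ⟨pt y, hy, by simp [it_zero]⟩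
    | succ j ih =>
      obtain ⟨ξ, h1, h2⟩ := ih
      obtain ⟨ξ', h3, h4⟩ := hY ξ h1
      refine ⟨ξ', h3, ?_⟩
      rw [add_comm, it_add, it_one, Scheme.Hom.comp_apply, h4, h2]
  choose ξ hξY hξ using hξ
  choose F instF instAC φ yj hyj hpt using fun j => exists_lift (it G j) y (ξ j) (hξ j)
  let A := Γ(B, B')
  let K := FractionRing A
  let ψ : ∀ j, A →+* F j := fun j => (φ j).comp (ev (y ≫ p) B' hb)
  have hψ : ∀ j, Function.Injective (ψ j) := fun j => (φ j).injective.comp hinj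
  letI : ∀ j, Algebra K (F j) := fun j => (IsFractionRing.lift (K := K) (hψ j)).toAlgebra
  have halg : ∀ j (a : A), algebraMap K (F j) (algebraMap A K a) = ψ j a := fun j a =>
    IsFractionRing.lift_algebraMap (hψ j) a
  have hyp : ∀ j, yj j ≫ p = Spec.map (CommRingCat.ofHom (φ j)) ≫ y ≫ p := by
    intro j
    rw [← it_comp G p hG j, reassoc_of% (hyj j), it_comp G p hG j]
  have hbj : ∀ j, pt (yj j ≫ p) ∈ B' := fun j => by rw [hyp, pt_specMap]; exact hb
  have hevj : ∀ j a, ev (yj j ≫ p) B' (hbj j) a = ψ j a := by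
    intro j a
    rw [ev_congr (hyp j) B' (hbj j) (hyp j ▸ hbj j), ev_specMap (φ j) (y ≫ p) B' hb]
    rfl
  have hKL : ∀ j (x : K), algebraMap K (F j) x ∈ L.map (φ j) := by
    intro j x
    obtain ⟨a, b, -, rfl⟩ := IsFractionRing.div_surjective (A := A) x
    rw [map_div₀, halg, halg]
    exact div_mem ⟨_, hL a, rfl⟩ ⟨_, hL b, rfl⟩
  let Lj : ∀ j, IntermediateField K (F j) := fun j => (L.map (φ j)).toIntermediateField (hKL j)
  choose τ hτ using fun j => hc.2 (F j) (yj j)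
  have hϑ : ∀ j m, ∃ ϑ : ι → F j, c.Is (yj j ≫ it G m) ϑ ∧ (j < m → ∀ s, ϑ s ∈ Lj j) ∧
      (m = j → ϑ i = 1 ∧ ϑ l = φ j (ev y _ hi (c.r l i))) := by
    intro j m
    rcases lt_trichotomy j m with h | h | h
    · obtain ⟨d, rfl⟩ := Nat.exists_eq_add_of_lt h
      obtain ⟨t, ht⟩ := hc.2 L (y'' ≫ it G d)
      have e : yj j ≫ it G (j + d + 1) =
          Spec.map (CommRingCat.ofHom ((φ j).comp L.subtype)) ≫ y'' ≫ it G d := by
        rw [show j + d + 1 = j + (1 + d) by ring, it_add, it_add, it_one, reassoc_of% (hyj j),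
          reassoc_of% hy'', CommRingCat.ofHom_comp, Spec.map_comp, Category.assoc]
      refine ⟨fun s => (φ j).comp L.subtype (t s), e ▸ ht.map _, fun _ s => ⟨_, (t s).2, rfl⟩,
        fun h' => by omega⟩
    · subst h
      obtain ⟨t, ht⟩ := hc.2 E y
      have hti : t i ≠ 0 := (ht.2.1 i).1 hi
      refine ⟨fun s => φ j (t s / t i), hyj j ▸ (ht.div hti).map _, fun h' => by omega,
        fun _ => ⟨by simp [hti], by rw [ht.2.2 i hi l]⟩⟩
    · obtain ⟨t, ht⟩ := hc.2 (F j) (yj j ≫ it G m)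
      exact ⟨t, ht, fun h' => by omega, fun h' => by omega⟩
  choose ϑ hϑ1 hϑ2 hϑ3 using hϑ
  choose e he using fun m i' => exists_e c hc.1 (it G m) (hgen i').1
  choose P hP using fun m i' s s' => (hgen i').2 (e m i' s s')
  have : CharZero K := algebraRat.charZero K |> fun h => h
  refine hB K ι F Lj τ ϑ (fun m i' s s' => MvPolynomial.map (algebraMap A K) (P m i' s s'))
    (fun j => (hτ j).1) (fun j m i' hi' => ?_) (fun j m h => hϑ2 j m h)
    (fun j => ⟨i, (hϑ3 j j rfl).1⟩) (fun j => ⟨l, ?_⟩)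
  · have h1 : pt (yj j) ∈ c.O i' := ((hτ j).2.1 i').2 hi'
    have h2 : pt (yj j) ∈ p ⁻¹ᵁ B' ⊓ c.O i' := ⟨by have := hbj j; rwa [pt_comp] at this, h1⟩
    obtain ⟨lam, hl1, hl2⟩ := he m i' (F j) (yj j) h2 (ϑ j m) (hϑ1 j m)
    refine ⟨lam, hl1, fun s s' => ?_⟩
    rw [← hl2, hP, MvPolynomial.aeval_def, MvPolynomial.eval₂_map,
      MvPolynomial.eval₂_comp_left]
    congr 1
    · ext a
      simp only [RingHom.comp_apply]
      rw [halg, ← hevj]
      exact (ev_appLE (yj j) p inf_le_left h2 (hbj j) a).symm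
    · ext s''
      simp only [Function.comp_apply]
      rw [← (hτ j).2.2 i' h1 s'']
      exact (ev_res (yj j) inf_le_right h2 _).symm
  · rw [(hϑ3 j j rfl).2]
    intro halg'
    apply htr
    let f : L →+* Lj j := ((φ j).comp L.subtype).codRestrict (Lj j) fun x => ⟨_, x.2, rfl⟩
    refine IsAlgebraic.of_ringHom_of_comp_eq f (φ j) halg' ?_ (φ j).injective rfl
    rintro ⟨_, x, hx, rfl⟩
    exact ⟨⟨x, hx⟩, rfl⟩

end Pool.Agent.H505Z.NP
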